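import Pool.Agent.Lib.MP_1a91b9_nuT.S6.Du2

/-!
# Job S6_De1: the mean value property (DOC6 6.4)

`Smooth R β b`, `α ∈ 𝔟`, `α ≠ 0`, `R` divisible by the odd part of `Nα := absNorm (span {α})`:
* `de_cop`: `β` is coprime to `Nα` in `𝓞 F`: `β ≡ 1 mod R` and `β` is odd (`β ∣ b ∣ k` odd,
  `nf_dvd`, `kf_odd`), `Nα = 2^j * (odd part)`, the odd part divides `R`.
* `de_surj`: for `z ∈ 𝔟` there is `a ∈ 𝓞 K` with `z - a α ∈ β 𝔟`. `x β + y Nα = 1`,
  `Nα = α w₁` (`Ideal.absNorm_mem`), `z = β (x z) + α (y w₁ z)`, `y w₁ z = a + β w'` (`gen`), and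
  `α β w' = β (α w')` with `α w' ∈ 𝔟`.
* `de_iff`: for `z ∈ 𝔟` there is `x ∈ 𝓞 K` such that for all `y`: `z + y α ∈ β 𝔟 ↔ b ∣ y - x`.
  Existence from `de_surj` for `-z`. The set `Z = {y | y α ∈ β 𝔟}` is an ideal of `𝓞 K` containing
  `b` (`β ∣ b`), and `𝓞 K / Z → 𝔟 / β 𝔟` is a bijection, `𝔟 / β 𝔟` has
  `absNorm (span {β}) = ‖NF β‖² = ‖embK b‖²` elements (`nf_abs`; index of `β 𝔟` in `𝔟`:
  `Ideal.absNorm` multiplicative, `absNorm (β 𝔟) = absNorm (span {β}) * absNorm 𝔟`), and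
  `𝓞 K / b` has `‖embK b‖²` elements too (the same for `K`, or `absNorm (span {b})`).
  So `Z = span {b}`.
* `de_fam`: a family `x_j` of representatives of `𝓞 K / b`, `j < r = ‖embK b‖²`.
-/

set_option autoImplicit false

namespace Pool.Agent.Lib.MP_1a91b9_nuT

variable [CD]

open NumberField

universe u

variable {F : Type u} [Field F] [NumberField F] [Algebra K F]

theorem de1_mem {𝔟 : Ideal (𝓞 F)} {β z : 𝓞 F} : (z : F) ∈ mulI 𝔟 β ↔ ∃ w ∈ 𝔟, z = β * w := by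
  constructor
  · rintro ⟨w, hw, h⟩
    exact ⟨w, hw, RingOfIntegers.ext h⟩
  · rintro ⟨w, hw, h⟩
    refine ⟨w, hw, ?_⟩
    rw [h]
    rfl


theorem de1_absK (b : 𝓞 K) : ((Ideal.absNorm (Ideal.span {b}) : ℕ) : ℝ) = ‖embK (b : K)‖ ^ 2 := by
  have h := nf_abs (F := K) b
  rw [← h, NF, Algebra.norm_self]
  rfl


theorem de_fam (b : 𝓞 K) (hb : b ≠ 0) :
    ∃ (r : ℕ) (x : Fin r → 𝓞 K), (r : ℝ) = ‖embK (b : K)‖ ^ 2 ∧ 0 < r ∧
      ∀ y : 𝓞 K, ∃! j, b ∣ x j - y := by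
  have hne : Ideal.absNorm (Ideal.span {b}) ≠ 0 := by
    rw [Ne, Ideal.absNorm_eq_zero_iff, Ideal.span_singleton_eq_bot]
    exact hb
  have hcard : Ideal.absNorm (Ideal.span {b}) = Nat.card (𝓞 K ⧸ Ideal.span {b}) := by
    rw [Ideal.absNorm_apply, Submodule.cardQuot_apply]
  have hfin : Finite (𝓞 K ⧸ Ideal.span {b}) := by
    apply Nat.finite_of_card_ne_zero
    rw [← hcard]
    exact hne
  have e : 𝓞 K ⧸ Ideal.span {b} ≃ Fin (Nat.card (𝓞 K ⧸ Ideal.span {b})) := Finite.equivFin _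
  refine ⟨Nat.card (𝓞 K ⧸ Ideal.span {b}), fun j => (e.symm j).out, ?_, ?_, fun y => ?_⟩
  · rw [← hcard, de1_absK]
  · rw [← hcard]
    exact Nat.pos_of_ne_zero hne
  · have key : ∀ j, b ∣ (e.symm j).out - y ↔ j = e (Ideal.Quotient.mk (Ideal.span {b}) y) := by
      intro j
      rw [← Ideal.mem_span_singleton, ← Ideal.Quotient.eq]
      have h1 : Ideal.Quotient.mk (Ideal.span {b}) (e.symm j).out = e.symm j := Quotient.out_eq' _
      rw [h1]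
      exact e.symm_apply_eq
    exact ⟨e (Ideal.Quotient.mk (Ideal.span {b}) y), (key _).2 rfl, fun j hj => (key j).1 hj⟩

end Pool.Agent.Lib.MP_1a91b9_nuT
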