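import Pool.Agent.Lib.MP_1a91b9_nuT.S6.Un1

/-!
# Job S6_Un2: a basis of the units congruent to 1 modulo 𝔪, regulator (DOC6 6.5)

`V = unV 𝔪` has finite index in `(𝓞 F)ˣ` (`un_fin`) and is torsion free (`un_tors`), so it is free
abelian of rank `NumberField.Units.rank F = #InfinitePlace - 1 = m` (`un_place`; Mathlib: Dirichlet,
`NumberField.Units.basisModTorsion`, `fundSystem`, `Units.exist_unique_eq_mul_prod`). Basis
`ε_1..ε_m` (`Module.Free` over `ℤ` of `Additive V`; finite index subgroup, same rank).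
The vectors `(log ‖σ_j ε_i‖²)_j` are `2 log w_j(ε_i)` = entries of the logarithmic embedding
(`NumberField.Units.logEmbedding`, `mult = 2`), their sum over `j` is `0` (product formula for units,
`sum_logEmbedding...` or `NF ε` of absolute value `1`). The logarithmic embedding of `V` is a lattice
of full rank `m` in the space `{w ≠ w₀} → ℝ` (finite index in the unit lattice, which is a full
lattice), so the `m` vectors with the coordinate of `w₀` removed are linearly independent over `ℝ`.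
`det (regM)`: add all columns to the column of `w₀` (`j₀`): it becomes `(n, 0, .., 0)`, so the
determinant is `± n * det (minor) ≠ 0`. (Or: if `regM` were singular there would be a nonzero vector
`c` with `regM *ᵥ c = 0`: `∑ c_j = 0` and `∑_j c_j log‖σ_j ε_i‖² = 0` for all `i`; as the
`ε_i`-vectors span the hyperplane `{x | ∑ x_j = 0}`, `c` is proportional to `(1,..,1)`, so `c = 0`.)
-/

set_option autoImplicit false

namespace Pool.Agent.Lib.MP_1a91b9_nuT

variable [CD]

open NumberField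

universe u

variable {F : Type u} [Field F] [NumberField F] [Algebra K F]

open NumberField.Units NumberField.Units.dirichletUnitTheorem Module


/-- The logarithmic embedding of `V`. -/
noncomputable def un2_q (𝔪 : Ideal (𝓞 F)) : Additive (unV 𝔪) →ₗ[ℤ] unitLattice F :=
  (((logEmbedding F).comp (MonoidHom.toAdditive (unV 𝔪).subtype)).toIntLinearMap).codRestrict
    (unitLattice F) (fun v => ⟨Additive.ofMul ((v.toMul : unV 𝔪) : (𝓞 F)ˣ), trivial, rfl⟩)

theorem un2_q_apply (𝔪 : Ideal (𝓞 F)) (v : unV 𝔪) :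
    (un2_q 𝔪 (Additive.ofMul v) : logSpace F) = logEmbedding F (Additive.ofMul (v : (𝓞 F)ˣ)) := rfl


/-- The power map. -/
noncomputable def un2_p (𝔪 : Ideal (𝓞 F)) (u : (𝓞 F)ˣ) : unV 𝔪 :=
  ⟨u ^ (unV 𝔪).index, (unV 𝔪).pow_index_mem u⟩

theorem un2_card {m : ℕ} (σ : Fin (m + 1) → (F →ₐ[K] ℂ)) (hσ : Function.Bijective σ) :
    rank F = m := by
  have h1 := (un_place σ hσ).1
  have h2 : Fintype.card (InfinitePlace F) = m + 1 := by
    rw [← Fintype.card_of_bijective h1, Fintype.card_fin]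
  rw [rank, h2, Nat.add_sub_cancel]

theorem un2_li (𝔪 : Ideal (𝓞 F)) (hm : 𝔪 ≠ ⊥) :
    LinearIndependent ℤ (fun i : Fin (rank F) =>
      (Additive.ofMul (un2_p 𝔪 (fundSystem F i)) : Additive (unV 𝔪))) := by
  have key : ∀ i, un2_q 𝔪 (Additive.ofMul (un2_p 𝔪 (fundSystem F i))) =
      ((unV 𝔪).index : ℤ) • basisUnitLattice F i := by
    intro i
    apply Subtype.ext
    rw [un2_q_apply]
    show logEmbedding F (Additive.ofMul ((fundSystem F i) ^ (unV 𝔪).index)) = _
    rw [ofMul_pow, map_nsmul, logEmbedding_fundSystem, natCast_zsmul]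
    rfl
  refine LinearIndependent.of_comp (un2_q 𝔪) ?_
  rw [linearIndependent_iff']
  intro s k hk i hi
  have hb := (basisUnitLattice F).linearIndependent
  rw [linearIndependent_iff'] at hb
  have h1 : ∑ i ∈ s, (k i * ((unV 𝔪).index : ℤ)) • basisUnitLattice F i = 0 := by
    rw [← hk]
    refine Finset.sum_congr rfl fun i _ => ?_
    rw [Function.comp_apply, key, mul_smul]
  have h2 := hb s _ h1 i hi
  rcases mul_eq_zero.1 h2 with h | h
  · exact h
  · exact absurd (Nat.cast_eq_zero.1 h) (un_fin 𝔪 hm)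


/-- The linear form `∑ c_j log |σ_j u|²` on the units. -/
noncomputable def un2_L {m : ℕ} (σ : Fin (m + 1) → (F →ₐ[K] ℂ)) (c : Fin (m + 1) → ℝ) (u : (𝓞 F)ˣ) : ℝ :=
  ∑ j, c j * Real.log (‖σ j ((u : 𝓞 F) : F)‖ ^ 2)

theorem un2_ne {m : ℕ} (σ : Fin (m + 1) → (F →ₐ[K] ℂ)) (j : Fin (m + 1)) (u : (𝓞 F)ˣ) :
    ‖σ j ((u : 𝓞 F) : F)‖ ^ 2 ≠ 0 := by
  have h1 : ((u : 𝓞 F) : F) ≠ 0 := by
    intro h
    exact u.ne_zero (RingOfIntegers.coe_injective h)
  have h2 : σ j ((u : 𝓞 F) : F) ≠ 0 := by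
    intro h
    exact h1 ((map_eq_zero_iff (σ j : F →+* ℂ) (RingHom.injective _)).1 h)
  positivity

theorem un2_L_mul {m : ℕ} (σ : Fin (m + 1) → (F →ₐ[K] ℂ)) (c : Fin (m + 1) → ℝ) (u v : (𝓞 F)ˣ) :
    un2_L σ c (u * v) = un2_L σ c u + un2_L σ c v := by
  unfold un2_L
  rw [← Finset.sum_add_distrib]
  refine Finset.sum_congr rfl fun j _ => ?_
  have e : σ j (((u * v : (𝓞 F)ˣ) : 𝓞 F) : F) = σ j ((u : 𝓞 F) : F) * σ j ((v : 𝓞 F) : F) := by
    rw [← map_mul]
    rfl
  rw [e, norm_mul, mul_pow, Real.log_mul (un2_ne σ j u) (un2_ne σ j v), mul_add]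

/-- The linear form as a homomorphism. -/
noncomputable def un2_H {m : ℕ} (σ : Fin (m + 1) → (F →ₐ[K] ℂ)) (c : Fin (m + 1) → ℝ) :
    (𝓞 F)ˣ →* Multiplicative ℝ where
  toFun u := Multiplicative.ofAdd (un2_L σ c u)
  map_one' := by
    have h := un2_L_mul σ c 1 1
    rw [mul_one] at h
    have h1 : un2_L σ c 1 = 0 := by linarith
    rw [h1]; rfl
  map_mul' u v := by rw [un2_L_mul]; rfl


end Pool.Agent.Lib.MP_1a91b9_nuT
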