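import Pool.Agent.Lib.MP_1a91b9_nuT.S6.Co2
import Pool.Agent.Lib.MP_1a91b9_nuT.S3.Main

/-!
# Job S6_Bs1: the base case, finite sums of `E₁` (DOC6 6.9)

`b ∈ 𝓞 K`, `Smooth 3 β b` in the base field: `algebraMap K F` is bijective, so `[F : K] = 1`, the
norm and the trace of `algebraMap K F x` are `x`, `β = b` under the bijection, `3 ∣ b - 1`,
`k = ‖embK b‖²` is a natural number, odd, `k = b * conj b`.
* `bs_sum1`: `∑_{(p,q) mod 3k, p + q ω ≡ 1 mod 3} (3k)⁻¹ E1((p + q zt)/(3k)) = E1(1/3)/3`: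
  `p = 1 + 3u`, `q = 3v`, `u, v mod k`: `(p + q zt)/(3k) = 1/(3k) + (u + v zt)/k`; `s3_dist` with
  `α = (k, 0)`, `T = {(u + v zt)/k}` (`k²` elements), `z = 1/(3k)`: the sum over `T` is
  `k E1(1/3)` (`k z = 1/3` is not a lattice point).
* `bs_sum2`: `∑_{(p,q) mod 3k, ≡ 1 mod 3, b ∣ p + q ω} (3k)⁻¹ E1((p+q zt)/(3k)) =
  conj b * E1(1/3)/(3k)`: `p + q ω = b (1 + 3w)` with `w` modulo `conj b` (`b ≡ 1 mod 3`), so
  `(p + q zt)/(3k) = 1/(3 conj b) + w/conj b`; `s3_dist` with `lp α = conj b`, `T` = the `k` classes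
  `w / conj b`. (Periodicity `s3_period` to change representatives.)
* `bs_val`: so `∑ δ(p + qω) (3k)⁻¹ E1((p+q zt)/(3k)) = (1 - conj b) E1(1/3)/3`,
  `δ = 1[≡ 1 mod 3](1 - k 1[b ∣ ·])`.
-/

set_option autoImplicit false

namespace Pool.Agent.Lib.MP_1a91b9_nuT

variable [CD]

open NumberField

noncomputable section


theorem bs1_zero (p q : ℤ) (h : (p : ℂ) + q * zt = 0) : p = 0 ∧ q = 0 := by
  have him := congrArg Complex.im h
  have hre := congrArg Complex.re h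
  simp at him hre
  have hq : q = 0 := by
    rcases him with h | h
    · exact h
    · exact absurd h zt_ne
  subst hq
  simp at hre
  exact ⟨hre, rfl⟩

theorem bs1_zeroO (p q : ℤ) (h : (p : 𝓞 K) + (q : 𝓞 K) * omO = 0) : p = 0 ∧ q = 0 := by
  apply bs1_zero
  rw [← kf_emb, h]
  simp


theorem bs1_normK (x : K) : ((Algebra.norm ℚ x : ℚ) : ℂ) = embK x * (starRingEnd ℂ) (embK x) := by
  classical
  have h1 := Algebra.norm_eq_prod_embeddings ℚ ℂ (x := x)
  let cj : K →ₐ[ℚ] ℂ := (Complex.conjAe.toAlgHom.restrictScalars ℚ).comp embK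
  have hcj : ∀ y, cj y = (starRingEnd ℂ) (embK y) := fun y => rfl
  have hne : embK ≠ cj := by
    intro h
    have h2 := DFunLike.congr_fun h om
    rw [hcj, embK_om] at h2
    have h3 := congrArg Complex.im h2
    simp at h3
    exact zt_ne (by linarith)
  have hcard : Fintype.card (K →ₐ[ℚ] ℂ) = 2 := by
    rw [AlgHom.card, finrank_K]
  have huniv : (Finset.univ : Finset (K →ₐ[ℚ] ℂ)) = {embK, cj} := by
    symm
    apply Finset.eq_of_subset_of_card_le (Finset.subset_univ _)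
    rw [Finset.card_pair hne, Finset.card_univ, hcard]
  rw [huniv, Finset.prod_pair hne, hcj] at h1
  exact h1

theorem bs1_card (a : 𝓞 K) : (Nat.card (𝓞 K ⧸ Ideal.span {a}) : ℝ) = ‖embK (a : K)‖ ^ 2 := by
  have h1 : Nat.card (𝓞 K ⧸ Ideal.span {a}) = (Algebra.norm ℤ a).natAbs := by
    rw [← Ideal.absNorm_span_singleton, Ideal.absNorm_apply, Submodule.cardQuot_apply]
  have h2 := Algebra.coe_norm_int a
  have h3 := bs1_normK (a : K)
  rw [Complex.mul_conj, Complex.normSq_eq_norm_sq] at h3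
  have h4 : ((Algebra.norm ℚ (a : K) : ℚ) : ℝ) = ‖embK (a : K)‖ ^ 2 := by
    exact_mod_cast h3
  have h5 : ((Algebra.norm ℤ a : ℤ) : ℝ) = ‖embK (a : K)‖ ^ 2 := by
    rw [← h4, ← h2]
    push_cast
    rfl
  rw [h1, ← h5]
  have h6 : 0 ≤ Algebra.norm ℤ a := by
    have : (0:ℝ) ≤ ((Algebra.norm ℤ a : ℤ) : ℝ) := by rw [h5]; positivity
    exact_mod_cast this
  rw [Nat.cast_natAbs, abs_of_nonneg h6]


end

end Pool.Agent.Lib.MP_1a91b9_nuT
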