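import Pool.Agent.Lib.MP_1a91b9_nuT.S6.Du2

/-!
# Job S6_Ar1: reduction at 2 (DOC6 6.6)

Induction on `e`. `S` for `e = 0`: the image of `v` (`Unimod`, `bb.det v ≠ 0` so `v` is linearly
independent, `Module.Basis.det` / `is_basis_iff_det`).
Step `e + 1`. `b'` = norm of `β'`, `β' ∣ b'` (`nf_dvd`), so `b' v_i ∈ DL 𝔟`: the coordinates
`M_ij := b' * bb.repr (v i) j` are in `𝓞 K`. `k det(v) = 2^(e+1) u`, `det M = b'^(m+1) det v`, so
`2 ∣ det M` (`kf_two`, `k` odd). Over the domain `𝓞 K / (2)` (`kf_two`) the determinant vanishes: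
`Matrix.exists_vecMul_eq_zero_iff`: there are `c_i ∈ 𝓞 K`, not all divisible by `2`, with
`2 ∣ ∑ c_i M_ij` for all `j` (`ar_dep`). Replace the even `c_i` by `0` (still true).
Let `i₁` with `2 ∤ c_{i₁}`, `w₀ = (1/2) ∑ c_i v_i`. `b' w₀` has coordinates
`(1/2) ∑ c_i M_ij ∈ 𝓞 K` so `b' w₀ ∈ DL`; `2 β' w₀ = ∑ c_i β' v_i ∈ DL` and
`b' (β' w₀) ∈ DL`; `2` and `b'` are coprime in `𝓞 K` (`kf_odd`: `b' c = k'` odd) so `β' w₀ ∈ DL`.
`gen_rep` (with `v_{i₁}`): `w₀ = y v_{i₁} + w'`, `w' ∈ DL`. `w := v_{i₁} + w' = w₀ + (1-y) v_{i₁}`,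
`Gen w` (`gen_add`), `w = (1/2) ∑ c'_i v_i` with `c'_{i₁} = c_{i₁} + 2 (1-y)` odd, `c'_i = c_i`
otherwise (odd or zero).
For `j : Fin (m+1)` the tuple `T_j := Fin.cons w (fun i => v (j.succAbove i))` satisfies
`bb.det T_j = (1/2) c'_j (±1) bb.det v` (multilinearity in the first entry, `ar_det`:
`det (cons v_k (v ∘ succAbove j))` is `0` for `k ≠ j` (repeated vector) and `(-1)^j det v` for
`k = j`). So `T_j` is dependent if `c'_j = 0`, and otherwise `k det T_j = 2^e (± c'_j u)` with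
`2 ∤ c'_j u`. Take the sets `S_j` of the induction hypothesis (for `c'_j ≠ 0`) and
`S = {w} ∪ image v ∪ ⋃ S_j`. The cocycle relation for `Fin.cons w v : Fin (m+2) → F` gives
`I v = ∑_j (-1)^j I T_j`, a sum of elements of `M`.
-/

set_option autoImplicit false

namespace Pool.Agent.Lib.MP_1a91b9_nuT

variable [CD]

open NumberField

universe u

section cast

variable {L : Type*} [Field L]

theorem ar1_mul (a b : 𝓞 L) : ((a * b : 𝓞 L) : L) = (a : L) * (b : L) :=
  map_mul (algebraMap (𝓞 L) L) a b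

theorem ar1_add (a b : 𝓞 L) : ((a + b : 𝓞 L) : L) = (a : L) + (b : L) :=
  map_add (algebraMap (𝓞 L) L) a b

theorem ar1_sub (a b : 𝓞 L) : ((a - b : 𝓞 L) : L) = (a : L) - (b : L) :=
  map_sub (algebraMap (𝓞 L) L) a b

theorem ar1_neg (a : 𝓞 L) : ((-a : 𝓞 L) : L) = -(a : L) :=
  map_neg (algebraMap (𝓞 L) L) a

theorem ar1_one : ((1 : 𝓞 L) : L) = 1 :=
  map_one (algebraMap (𝓞 L) L)

theorem ar1_zero : ((0 : 𝓞 L) : L) = 0 :=
  map_zero (algebraMap (𝓞 L) L)

theorem ar1_nat (n : ℕ) : (((n : ℕ) : 𝓞 L) : L) = n :=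
  map_natCast (algebraMap (𝓞 L) L) n


theorem ar1_pow (a : 𝓞 L) (n : ℕ) : ((a ^ n : 𝓞 L) : L) = (a : L) ^ n :=
  map_pow (algebraMap (𝓞 L) L) a n

theorem ar1_sum {ι : Type*} (s : Finset ι) (a : ι → 𝓞 L) :
    ((∑ i ∈ s, a i : 𝓞 L) : L) = ∑ i ∈ s, (a i : L) :=
  map_sum (algebraMap (𝓞 L) L) a s

theorem ar1_inj (a b : 𝓞 L) (h : (a : L) = (b : L)) : a = b :=
  NumberField.RingOfIntegers.coe_injective h

end cast

variable {F : Type u} [Field F] [NumberField F] [Algebra K F]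


theorem ar_det {m : ℕ} (bb : Module.Basis (Fin (m + 1)) K F) (v : Fin (m + 1) → F)
    (c : Fin (m + 1) → K) (j : Fin (m + 1)) :
    bb.det (Fin.cons (∑ i, c i • v i) (fun i => v (j.succAbove i)) : Fin (m + 1) → F) =
      (-1) ^ (j : ℕ) * c j * bb.det v := by
  classical
  set τ : Equiv.Perm (Fin (m + 1)) := j.cycleRange.symm with hτ
  have hτ0 : τ 0 = j := Fin.cycleRange_symm_zero j
  have hτs : ∀ i : Fin m, τ i.succ = j.succAbove i := fun i => Fin.cycleRange_symm_succ j i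
  have h1 : ∀ x : F, (Fin.cons x (fun i => v (j.succAbove i)) : Fin (m + 1) → F) =
      Function.update (v ∘ τ) 0 x := by
    intro x
    funext i
    refine Fin.cases ?_ (fun i => ?_) i
    · simp
    · rw [Fin.cons_succ, Function.update_of_ne (Fin.succ_ne_zero i), Function.comp_apply, hτs]
  rw [h1, AlternatingMap.map_update_sum, Finset.sum_eq_single j]
  · rw [AlternatingMap.map_update_smul]
    have h2 : Function.update (v ∘ τ) 0 (v j) = v ∘ τ := by
      rw [← hτ0]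
      exact Function.update_eq_self 0 (v ∘ τ)
    rw [h2, AlternatingMap.map_perm, hτ, Equiv.Perm.sign_symm, Fin.sign_cycleRange, smul_eq_mul]
    rw [Units.smul_def, zsmul_eq_mul]
    push_cast
    ring
  · intro i _ hij
    rw [AlternatingMap.map_update_smul]
    have h3 : τ.symm i ≠ 0 := by
      intro h
      apply hij
      rw [← hτ0, ← h, Equiv.apply_symm_apply]
    have h4 : v i = (v ∘ τ) (τ.symm i) := by simp
    rw [h4, AlternatingMap.map_update_self _ _ h3.symm, smul_zero]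
  · intro h
    exact absurd (Finset.mem_univ j) h

omit [NumberField F] in
/-- The determinant of a tuple and of its matrix of coordinates. -/
theorem ar1_detmat {m : ℕ} (bb : Module.Basis (Fin (m + 1)) K F) (v : Fin (m + 1) → F)
    (b' : 𝓞 K) (M : Matrix (Fin (m + 1)) (Fin (m + 1)) (𝓞 K))
    (hM : ∀ i j, ((M i j : 𝓞 K) : K) = (b' : K) * bb.repr (v i) j) :
    ((M.det : 𝓞 K) : K) = (b' : K) ^ (m + 1) * bb.det v := by
  have h1 : ((M.det : 𝓞 K) : K) = ((algebraMap (𝓞 K) K).mapMatrix M).det :=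
    RingHom.map_det _ _
  have h2 : (algebraMap (𝓞 K) K).mapMatrix M = (b' : K) • (bb.toMatrix v).transpose := by
    ext i j
    rw [RingHom.mapMatrix_apply, Matrix.map_apply, Matrix.smul_apply, Matrix.transpose_apply,
      Module.Basis.toMatrix_apply, smul_eq_mul]
    exact hM i j
  rw [h1, h2, Matrix.det_smul, Matrix.det_transpose, Fintype.card_fin, Module.Basis.det_apply]


omit [NumberField F] in
theorem ar1_det_ne {m : ℕ} (bb : Module.Basis (Fin (m + 1)) K F) (v : Fin (m + 1) → F) :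
    LinearIndependent K v ↔ bb.det v ≠ 0 := by
  constructor
  · intro h
    have h1 : IsUnit (bb.det v) := by
      rw [← Module.Basis.is_basis_iff_det]
      refine ⟨h, ?_⟩
      have h2 : Fintype.card (Fin (m + 1)) = Module.finrank K F := by
        rw [Module.finrank_eq_card_basis bb]
      exact h.span_eq_top_of_card_eq_finrank h2
    exact h1.ne_zero
  · intro h
    have h1 : IsUnit (bb.det v) := isUnit_iff_ne_zero.mpr h
    rw [← Module.Basis.is_basis_iff_det] at h1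
    exact h1.1


end Pool.Agent.Lib.MP_1a91b9_nuT
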