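import Pool.Agent.Lib.MP_1a91b9_nuT.S6.De1

/-!
# Job S6_De2: the smoothed indicator functions are admissible (DOC6 6.4)

`de_adm`. `bdd`: the values are `0`, `1`, `1 - ‖b‖²`. `lat`: `D = 1`, the support is in `𝓞 F`
(elements of `cls`). `zero`: `0 = β' * 0 ∈ mulI 𝔟 β'`. `ne`: `v ∈ S`: `Gen v`; `v ≠ 0` (otherwise
`DL 𝔟 = β' DL 𝔟`, and `gen_ne` would put every element of `𝔟` in `β' 𝔟`; simplest: if `v = 0` then
`gen_ne` with `a = 0` gives `𝔟 ⊆ β' 𝔟`, so `β'` is a unit, `b'` a unit, but `b' ≡ 1 mod 3`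
(`nf_cong`, `3 ∣ R'`), so `b' = 1` (`kf_unit`), contradicting `odd1`). If `δ z ≠ 0` then
`z = w ∈ 𝔟` (as `w - t ∈ 𝔪 𝔟 ⊆ 𝔟`, `t ∈ 𝔟`), `z ∉ mulI 𝔟 β'`, and if the trace of `v z` were `0`
(integral!) then `gen_ne` gives `z ∈ mulI 𝔟 β'`, contradiction.
`mean`: for every subset `B` of the finite set `S` for which some `α ≠ 0` is orthogonal to `B`
choose one such `α` and scale it by a nonzero integer so that `α ∈ 𝓞 F` and `α ∈ β' 𝔪 𝔟`
(i.e. `α = β' α'` with `α' ∈ 𝔪 * 𝔟`, `α' ≠ 0`; `de_scale`). `R₀` := the product over these finitely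
many `B` of the odd parts of `absNorm (span {α_B})`. If `Smooth R₀ β b`: `r`, `x_j` from `de_fam`,
`a_j = x_j α_B`. For `v ∈ B`: `Tr(v x_j α) = x_j Tr(v α) = 0` (`𝓞 K`-linear). For `z ∈ F`:
`z ∈ cls ↔ z + a_j ∈ cls` (`a_j ∈ 𝔪 𝔟`) and `z ∈ mulI 𝔟 β' ↔ z + a_j ∈ mulI 𝔟 β'`
(`a_j ∈ β' 𝔟`). If the two conditions hold, `z ∈ 𝔟` and by `de_iff` exactly one `j` has
`z + a_j ∈ mulI 𝔟 β`: the sum is `r - ‖b‖² = 0`. Otherwise all terms vanish.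
`de_adm1`: the same without `β'` and with `S = ∅` (`B = ∅`, `α = 1` scaled into `𝔪 𝔟`);
`zero`: `0 ∈ cls` would mean `t ∈ 𝔪 𝔟`.
-/

set_option autoImplicit false

namespace Pool.Agent.Lib.MP_1a91b9_nuT

variable [CD]

open NumberField

universe u

variable {F : Type u} [Field F] [NumberField F] [Algebra K F]

theorem de2_mul (x y : 𝓞 F) : ((x * y : 𝓞 F) : F) = (x : F) * (y : F) :=
  map_mul (algebraMap (𝓞 F) F) x y

theorem de2_add (x y : 𝓞 F) : ((x + y : 𝓞 F) : F) = (x : F) + (y : F) :=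
  map_add (algebraMap (𝓞 F) F) x y

theorem de2_sub (x y : 𝓞 F) : ((x - y : 𝓞 F) : F) = (x : F) - (y : F) :=
  map_sub (algebraMap (𝓞 F) F) x y

theorem de2_zero : ((0 : 𝓞 F) : F) = 0 := map_zero (algebraMap (𝓞 F) F)

theorem de2_nat (n : ℕ) : (((n : ℕ) : 𝓞 F) : F) = (n : F) := map_natCast (algebraMap (𝓞 F) F) n

theorem de2_inj {x y : 𝓞 F} (h : (x : F) = (y : F)) : x = y := RingOfIntegers.ext h

theorem de2_mult (x : F) : ∃ N : ℕ, 0 < N ∧ ∃ y : 𝓞 F, (y : F) = (N : F) * x := by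
  have hx : IsAlgebraic ℤ x :=
    (IsFractionRing.isAlgebraic_iff ℤ ℚ F).mpr (Algebra.IsAlgebraic.isAlgebraic x)
  obtain ⟨y, hy, hint⟩ := hx.exists_integral_multiple
  refine ⟨y.natAbs, Int.natAbs_pos.2 hy, ?_⟩
  have h1 : IsIntegral ℤ ((y.natAbs : F) * x) := by
    rcases Int.natAbs_eq y with h | h
    · have h2 : ((y.natAbs : ℕ) : F) * x = y • x := by
        rw [zsmul_eq_mul]
        conv_rhs => rw [h]
        rw [Int.cast_natCast]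
      rw [h2]
      exact hint
    · have h2 : ((y.natAbs : ℕ) : F) * x = - (y • x) := by
        rw [zsmul_eq_mul]
        conv_rhs => rw [h]
        rw [Int.cast_neg, Int.cast_natCast]
        ring
      rw [h2]
      exact hint.neg
  exact ⟨⟨_, h1⟩, rfl⟩

theorem de_scale (J : Ideal (𝓞 F)) (hJ : J ≠ ⊥) (β' : 𝓞 F) (hβ : β' ≠ 0) (α : F) (hα : α ≠ 0) :
    ∃ N : ℕ, 0 < N ∧ ∃ α' ∈ J, α' ≠ 0 ∧ (N : F) * α = (β' : F) * (α' : F) := by
  have hβ0 : (β' : F) ≠ 0 := by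
    intro h
    exact hβ (RingOfIntegers.coe_eq_zero_iff.1 h)
  obtain ⟨N, hN, y, hy⟩ := de2_mult (α / (β' : F))
  have hJ0 : Ideal.absNorm J ≠ 0 := fun h => hJ (Ideal.absNorm_eq_zero_iff.1 h)
  have hN0 : (N : F) ≠ 0 := Nat.cast_ne_zero.2 hN.ne'
  have hy0 : y ≠ 0 := by
    intro h
    rw [h, de2_zero] at hy
    rcases mul_eq_zero.1 hy.symm with h1 | h1
    · exact hN0 h1
    · rcases div_eq_zero_iff.1 h1 with h2 | h2
      · exact hα h2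
      · exact hβ0 h2
  refine ⟨Ideal.absNorm J * N, Nat.mul_pos (Nat.pos_of_ne_zero hJ0) hN,
    ((Ideal.absNorm J : ℕ) : 𝓞 F) * y, J.mul_mem_right _ (Ideal.absNorm_mem J), ?_, ?_⟩
  · exact mul_ne_zero (Nat.cast_ne_zero.2 hJ0) hy0
  · rw [de2_mul, de2_nat, hy, Nat.cast_mul]
    field_simp


theorem de2_tr (v z : F) (x : 𝓞 K) :
    Algebra.trace K F (v * (((algebraMap (𝓞 K) (𝓞 F) x : 𝓞 F) : F) * z)) =
      (x : K) * Algebra.trace K F (v * z) := by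
  have h1 : v * (((algebraMap (𝓞 K) (𝓞 F) x : 𝓞 F) : F) * z) = (x : K) • (v * z) := by
    rw [Algebra.smul_def]
    change v * (algebraMap K F (x : K) * z) = _
    ring
  rw [h1, map_smul, smul_eq_mul]

theorem de2_cls (𝔟 𝔪 : Ideal (𝓞 F)) (t c : 𝓞 F) (hc : c ∈ 𝔪 * 𝔟) (z : F) :
    z + (c : F) ∈ cls 𝔟 𝔪 t ↔ z ∈ cls 𝔟 𝔪 t := by
  constructor
  · rintro ⟨w, hw, hwt⟩
    refine ⟨w - c, ?_, ?_⟩
    · rw [de2_sub, hw]
      ring
    · have h1 : w - c - t = (w - t) - c := by ring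
      rw [h1]
      exact Ideal.sub_mem _ hwt hc
  · rintro ⟨w, hw, hwt⟩
    refine ⟨w + c, ?_, ?_⟩
    · rw [de2_add, hw]
    · have h1 : w + c - t = (w - t) + c := by ring
      rw [h1]
      exact Ideal.add_mem _ hwt hc

theorem de2_mulI (𝔟 : Ideal (𝓞 F)) (β c : 𝓞 F) (hc : c ∈ 𝔟) (z : F) :
    z + ((β * c : 𝓞 F) : F) ∈ mulI 𝔟 β ↔ z ∈ mulI 𝔟 β := by
  rw [de2_mul]
  constructor
  · rintro ⟨w, hw, hwt⟩
    refine ⟨w - c, Ideal.sub_mem _ hw hc, ?_⟩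
    rw [de2_sub, mul_sub, ← hwt]
    ring
  · rintro ⟨w, hw, hwt⟩
    refine ⟨w + c, Ideal.add_mem _ hw hc, ?_⟩
    rw [de2_add, mul_add, ← hwt]


end Pool.Agent.Lib.MP_1a91b9_nuT
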