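import Pool.Agent.Lib.MP_1a91b9_nuT.S6.Sm1

/-!
# Job S6_Sm2: the smoothing elements, existence and variation (DOC6 6.2)

Take `θ`, `D` from `sm_theta`, `D = 2^j D'` with `D'` odd. `sm_c`: `c₀ ∈ 𝓞 K` with
`c₀ ≡ 1 mod R D'`, `c₀ ≡ omO mod 2` (Chinese remainder, `2` and `R D'` are coprime integers:
`c₀ = 1 + R D' e (omO - 1)` with `e = R D'` (odd, so `e² ≡ 1 mod 2`): `c₀ = 1 + (R D')² (omO - 1)`
works). It is coprime to `2 R D`: coprime to `R D'` and, since `omO` is a unit, to `2`, hence to the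
product `2^(j+1) R D'`. For every `c ≡ c₀ mod 2 R D` the hypotheses of `sm_elt` hold.
* `sm_exists`: `c = c₀`, `b` from `nf_int`.
* `sm_gt`: if `3 ∣ R` then `b` is not a unit: `β ≡ 1 mod 3` so `b ≡ 1 mod 3` (`nf_cong`), a unit
  `≡ 1 mod 3` is `1` (`kf_unit`), but `2 ∤ b - 1`. `b ≠ 0`. So `‖embK b‖² ≥ 2` (`kf_normInt`,
  a natural number, `1` would make `b` a unit).
* `sm_var`: if `s₀.re ≠ 3/2` any `β` works: the absolute value of the second term is
  `‖b‖ ^ (3 - 2 s₀.re) ≠ 1`. Let `s₀ = 3/2 + i τ`. The second term is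
  `(conj b / ‖b‖) * ‖b‖ ^ (-2 i τ)`. Let `ρ ∈ {1, omO}` and `c_k = c₀ + 2 R D k ρ`,
  `b_k = N(c_k + 2 R D θ) = ∏_j (c_k + 2 R D σ_j θ)` (`nf_prod`); as `k → ∞`,
  `b_k / (2 R D k ρ)^n → 1` (each factor divided by `2 R D k ρ` tends to `1`). Assume the second
  term is `1` for all of them. Then `conj b_k/‖b_k‖ → conj(ρ)^n` (`‖ρ‖ = 1`) and
  `log ‖b_k‖ - n log k → n log (2 R D)`, so `exp (-2 i τ n log k) → ` a limit of absolute value
  `1`; comparing `k`, `2k`, `3k`: `exp (-2 i τ n log 2) = 1 = exp (-2 i τ n log 3)`, so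
  `τ n log 2 = π p`, `τ n log 3 = π q`, if `τ ≠ 0` then `p, q ≠ 0` and `2^q = 3^p` up to signs:
  impossible (`log 2 / log 3` irrational: `2^|q| = 3^|p|` parity). If `τ = 0` then
  `conj b_k / ‖b_k‖ = 1` for all `k`, so `conj(ρ)^n = 1` for `ρ = omO`, `n = 2^k`: contradiction
  (`zt ^ (2^k) ≠ 1`).
-/

set_option autoImplicit false

namespace Pool.Agent.Lib.MP_1a91b9_nuT

variable [CD]

open NumberField Polynomial

universe u


variable {F : Type u} [Field F] [NumberField F] [Algebra K F]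


theorem sm2_pow23 (p q : ℤ) (h : (q : ℝ) * Real.log 2 = p * Real.log 3) (hq : q ≠ 0) : False := by
  have h1 : (q.natAbs : ℝ) * Real.log 2 = (p.natAbs : ℝ) * Real.log 3 := by
    have h2 := congrArg abs h
    rw [abs_mul, abs_mul, abs_of_pos (Real.log_pos (by norm_num : (1:ℝ) < 2)),
      abs_of_pos (Real.log_pos (by norm_num : (1:ℝ) < 3))] at h2
    rw [Nat.cast_natAbs, Nat.cast_natAbs]
    exact_mod_cast h2
  rw [← Real.log_pow, ← Real.log_pow] at h1
  have h3 := Real.log_injOn_pos (by simp : (0:ℝ) < 2 ^ q.natAbs) (by simp : (0:ℝ) < 3 ^ p.natAbs) h1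
  have h4 : 2 ^ q.natAbs = 3 ^ p.natAbs := by exact_mod_cast h3
  have h5 : Even (2 ^ q.natAbs) := (Nat.even_pow).2 ⟨even_two, by simpa using hq⟩
  have h6 : Odd (3 ^ p.natAbs) := Odd.pow (by decide)
  rw [h4] at h5
  exact (Nat.not_even_iff_odd.2 h6) h5

theorem sm2_step (τ : ℝ) (L : ℂ) (m : ℕ) (hm : 0 < m)
    (h : Filter.Tendsto (fun k : ℕ => Complex.exp (-2 * Complex.I * τ * Real.log k))
      Filter.atTop (nhds L)) (hL : L ≠ 0) : ∃ p : ℤ, τ * Real.log m = p * Real.pi := by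
  have h1 : Filter.Tendsto (fun k : ℕ => m * k) Filter.atTop Filter.atTop :=
    Filter.tendsto_id.const_mul_atTop' hm
  have h2 := h.comp h1
  have h3 := h.mul_const (Complex.exp (-2 * Complex.I * τ * Real.log m))
  have h4 : L = L * Complex.exp (-2 * Complex.I * τ * Real.log m) := by
    refine tendsto_nhds_unique (h2.congr' ?_) h3
    filter_upwards [Filter.eventually_gt_atTop 0] with k hk
    rw [Function.comp_apply, ← Complex.exp_add]
    congr 1
    have h7 : Real.log ((m * k : ℕ) : ℝ) = Real.log m + Real.log k := by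
      push_cast
      exact Real.log_mul (by positivity) (by positivity)
    rw [h7, Complex.ofReal_add]
    ring
  have h5 : Complex.exp (-2 * Complex.I * τ * Real.log m) = 1 := by
    have := mul_left_cancel₀ hL (h4.symm.trans (mul_one L).symm)
    exact this
  rw [Complex.exp_eq_one_iff] at h5
  obtain ⟨n, hn⟩ := h5
  refine ⟨-n, ?_⟩
  have h6 : ((-2 * τ * Real.log m : ℝ) : ℂ) * Complex.I =
      ((n * (2 * Real.pi) : ℝ) : ℂ) * Complex.I := by
    rw [Complex.ofReal_mul, Complex.ofReal_mul, Complex.ofReal_neg, Complex.ofReal_ofNat,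
      Complex.ofReal_mul, Complex.ofReal_mul, Complex.ofReal_ofNat, Complex.ofReal_intCast]
    linear_combination hn
  have h8 := Complex.ofReal_injective (mul_right_cancel₀ Complex.I_ne_zero h6)
  rw [Int.cast_neg]
  linarith

theorem sm_log (τ : ℝ) (L : ℂ)
    (h : Filter.Tendsto (fun k : ℕ => Complex.exp (-2 * Complex.I * τ * Real.log k))
      Filter.atTop (nhds L)) (hL : L ≠ 0) : τ = 0 := by
  obtain ⟨p, hp⟩ := sm2_step τ L 2 (by norm_num) h hL
  obtain ⟨q, hq⟩ := sm2_step τ L 3 (by norm_num) h hL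
  by_contra hτ
  push_cast at hp hq
  have h2 := Real.log_pos (by norm_num : (1:ℝ) < 2)
  have h3 := Real.log_pos (by norm_num : (1:ℝ) < 3)
  have hπ := Real.pi_pos
  refine sm2_pow23 p q ?_ ?_
  · have h4 : (τ * Real.pi) * ((q : ℝ) * Real.log 2) = (τ * Real.pi) * (p * Real.log 3) := by
      linear_combination (q : ℝ) * Real.pi * hp - (p : ℝ) * Real.pi * hq
    exact mul_left_cancel₀ (mul_ne_zero hτ hπ.ne') h4
  · rintro rfl
    rw [Int.cast_zero, zero_mul] at hq
    exact mul_ne_zero hτ h3.ne' hq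


/-- the second term -/
theorem sm2_term (x : ℂ) (hx : 2 ≤ ‖x‖ ^ 2) (s₀ : ℂ)
    (h : 1 - (‖x‖ ^ 2 : ℝ) * (starRingEnd ℂ) x * (‖x‖ : ℂ) ^ (-2 * s₀) = 0) :
    s₀.re = 3 / 2 ∧
      (starRingEnd ℂ) x * Complex.exp (-2 * Complex.I * s₀.im * Real.log ‖x‖) = ‖x‖ := by
  have hr1 : 1 < ‖x‖ := by
    by_contra hcon
    push Not at hcon
    have h0 := norm_nonneg x
    nlinarith
  have hr : 0 < ‖x‖ := by linarith
  have hrC : (‖x‖ : ℂ) ≠ 0 := by exact_mod_cast hr.ne'
  have h1 : ((‖x‖ ^ 2 : ℝ) : ℂ) * (starRingEnd ℂ) x * (‖x‖ : ℂ) ^ (-2 * s₀) = 1 := by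
    linear_combination -h
  have h2 := congrArg norm h1
  rw [norm_mul, norm_mul, RCLike.norm_conj, Complex.norm_real, norm_pow, norm_norm,
    Complex.norm_cpow_eq_rpow_re_of_pos hr, norm_one] at h2
  have h3 : (-2 * s₀).re = -2 * s₀.re := by simp
  rw [h3] at h2
  have hre : s₀.re = 3 / 2 := by
    have h4 := congrArg Real.log h2
    rw [Real.log_mul (by positivity) (by positivity), Real.log_mul (by positivity) (by positivity),
      Real.log_pow, Real.log_rpow hr, Real.log_one] at h4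
    have h5 : (3 - 2 * s₀.re) * Real.log ‖x‖ = 0 := by
      push_cast at h4
      linarith
    rcases mul_eq_zero.1 h5 with h | h
    · linarith
    · exact absurd h (Real.log_pos hr1).ne'
  refine ⟨hre, ?_⟩
  rw [Complex.cpow_def_of_ne_zero hrC, ← Complex.ofReal_log hr.le] at h1
  have h6 : (Real.log ‖x‖ : ℂ) * (-2 * s₀) = -2 * Complex.I * s₀.im * Real.log ‖x‖ +
      ((-3 * Real.log ‖x‖ : ℝ) : ℂ) := by
    have h7 : s₀ = (3 / 2 : ℂ) + s₀.im * Complex.I := by
      apply Complex.ext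
      · simp [hre]
      · simp
    rw [h7]
    push_cast
    simp
    ring
  rw [h6, Complex.exp_add, ← Complex.ofReal_exp] at h1
  have h8 : Real.exp (-3 * Real.log ‖x‖) = (‖x‖ ^ 3)⁻¹ := by
    rw [show -3 * Real.log ‖x‖ = -(((3 : ℕ) : ℝ) * Real.log ‖x‖) by push_cast; ring, Real.exp_neg,
      Real.exp_nat_mul, Real.exp_log hr]
  rw [h8] at h1
  push_cast at h1
  have h9 : -2 * Complex.I * (s₀.im : ℂ) * (Real.log ‖x‖ : ℂ) =
      -(2 * Complex.I * s₀.im * Real.log ‖x‖) := by ring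
  rw [h9] at h1 ⊢
  field_simp at h1
  exact h1


end Pool.Agent.Lib.MP_1a91b9_nuT
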