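import Pool.Agent.Lib.MP_1a91b9_nuT.S6.Co1
import Pool.Agent.Lib.MP_1a91b9_nuT.S6.Sm2

/-!
# Job S6_Co2: entire continuation of the partial series (DOC6 6.8)

Notation `fac b s = 1 - ‖b‖² conj b ‖b‖^(-2s)` (entire in `s`, `b ≠ 0`), `cls = cls 𝔟 𝔪 t`, `V = unV 𝔪`,
`ε` from `un_free`, `N𝔪 = absNorm 𝔪` odd (`𝔪` coprime to `2`), `R₀` from `de_adm1`.
* `co_gb`: for `β, b` with `Smooth R β b`, `R` divisible by `3 R₀ N𝔪` : `Adm2 (del1 ..) ∅`, `s2_main`
  (with `S = ∅`, fourth clause, `ε` as elements of `F`: nonzero, norm one by `un_norm`, invariance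
  `co_inv`, `regM` by `un_det`) gives an entire `g` with, for every set `X` of representatives of
  `cls = support (del1 ..)` (`co_sup1`, `co_reps`) and `Re s > 2`:
  `HasSum (del1 z * term s z) (g s)` (over `X`). Since `‖del1 z‖ ≥ 1` on `cls` the family `term s` is
  summable over `X`, with sum `T s`, and by `co_smooth1` `g s = T s * fac b s`.
* `co_entire`: for every `s₀` choose (`sm_var`, with `R = 3 R₀ N𝔪`) `β_{s₀}`, `b_{s₀}` with
  `fac b_{s₀} s₀ ≠ 0`; `A s := g_{β_s} s / fac b_s s`. For two choices `β, β₁`,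
  `g_β s fac b₁ s = g_{β₁} s fac b s` for `Re s > 2`, hence for all `s` (identity theorem for entire
  functions, `AnalyticOnNhd.eq_of_eventuallyEq` ...). So `A s * fac b s = g_β s` for every `β`, all `s`;
  near `s₀`, `A = g_{β_{s₀}} / fac b_{s₀}` is differentiable; for `Re s > 2`, `A s = T s`.
  `T` does not depend on the representatives (`co_indep`, `co_termV`).
-/

set_option autoImplicit false

namespace Pool.Agent.Lib.MP_1a91b9_nuT

variable [CD]

open NumberField

universe u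

/-- The smoothing factor. -/
noncomputable def facQ (b : 𝓞 K) (s : ℂ) : ℂ :=
  1 - (‖embK (b : K)‖ ^ 2 : ℝ) * (starRingEnd ℂ) (embK (b : K)) *
    (‖embK (b : K)‖ : ℂ) ^ (-2 * s)

variable {F : Type u} [Field F] [NumberField F] [Algebra K F]

theorem facQ_diff (b : 𝓞 K) (hb : b ≠ 0) : Differentiable ℂ (facQ b) := by
  have h0 : embK (b : K) ≠ 0 := by
    rw [map_ne_zero]
    intro h
    exact hb (RingOfIntegers.ext h)
  have h1 : ((‖embK (b : K)‖ : ℝ) : ℂ) ≠ 0 := by
    rw [Complex.ofReal_ne_zero]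
    exact norm_ne_zero_iff.mpr h0
  unfold facQ
  intro s
  have h2 : DifferentiableAt ℂ (fun s : ℂ => (‖embK (b : K)‖ : ℂ) ^ (-2 * s)) s :=
    DifferentiableAt.const_cpow (by fun_prop) (Or.inl h1)
  fun_prop


end Pool.Agent.Lib.MP_1a91b9_nuT
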