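import Pool.Agent.Lib.MP_1a91b9_nuT.S6.Du2
import Pool.Agent.Lib.MP_1a91b9_nuT.S3.Main

/-!
# Job S6_Fr1: unimodular frames have 2-integral values (DOC6 6.7)

* `fr_val`: `k'` odd natural number with `β' ∣ k'` (`nf_dvd` and `kf_odd` for `b'`), `D := k'`.
  `k' v_i = (k'/β') (β' v_i) ∈ DL 𝔟`, and for `z ∈ 𝔟`, `D Tr(v_i z) = Tr((k' v_i) z) ∈ 𝓞 K`.
  (`del z ≠ 0` implies `z ∈ cls ⊆ 𝔟`.)
  `c₁ := absNorm 𝔪 * k' * k` (`β ∣ k` odd): odd, and for `w ∈ 𝔟`: `c₁ w ∈ 𝔪 𝔟 ∩ β' 𝔟 ∩ β 𝔟`, so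
  `del (z + c₁ w) = del z`. Let `V_ij = bb.repr (v i) j`, `k' V` has entries in `𝓞 K`;
  `bb j = ∑ M_ji v_i`, `M = V⁻¹ = adj(V)/det V`, `adj(V) = adj(k' V)/k'^m`,
  `1/det V = k_u/u = k_u c_u / k₂` (`Unimod`: `k_u det V = u`, `kf_odd`: `u c_u = k₂` odd). So
  `c₂ := k'^m k₂` is odd and `c₂ M` has entries in `𝓞 K`. `c := c₁ c₂`. If `Tr(v_i μ) = c a_i` for all
  `i` then `Tr(bb_j μ) = ∑ M_ji c a_i ∈ c₁ 𝓞 K`, so `μ / c₁ ∈ 𝔟` (second property of `bb`).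
* `fr_det`: `d β' v_i` is integral for an odd `d` (`dl_int`), so `d k' v_i` is integral,
  `σ_j (v_i) ∈ A` (`kf_mem`), the determinant is a polynomial in them.
* `fr_mem`: all factors are in `A`: the values of `del` are integers (`‖embK b‖²` is a natural
  number, `kf_normInt`), `c` is odd so `c⁻¹ ∈ A`, `E1 (ixC D c x / c) / Om ∈ A` by `s3_mem` with
  `m = D c` (`D c * (ixC D c x / c) = p + q zt`). Divide the product of the `m + 1` factors by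
  `Om ^ (m + 1)`.
-/

set_option autoImplicit false

namespace Pool.Agent.Lib.MP_1a91b9_nuT

variable [CD]

open NumberField

universe u

variable {F : Type u} [Field F] [NumberField F] [Algebra K F]

theorem fr1_vm {L : Type u} [Field L] (a b : 𝓞 L) : ((a * b : 𝓞 L) : L) = (a : L) * (b : L) := rfl

theorem fr1_va {L : Type u} [Field L] (a b : 𝓞 L) : ((a + b : 𝓞 L) : L) = (a : L) + (b : L) := rfl

theorem fr1_vs {L : Type u} [Field L] (a b : 𝓞 L) : ((a - b : 𝓞 L) : L) = (a : L) - (b : L) := rfl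

theorem fr1_vn {L : Type u} [Field L] (k : ℕ) : (((k : ℕ) : 𝓞 L) : L) = (k : L) :=
  map_natCast (algebraMap (𝓞 L) L) k

theorem fr1_vsum {L : Type u} [Field L] {n : ℕ} (f : Fin n → 𝓞 L) :
    ((∑ i, f i : 𝓞 L) : L) = ∑ i, (f i : L) :=
  map_sum (algebraMap (𝓞 L) L) f Finset.univ


theorem fr1_cast (k : ℕ) : ((k : 𝓞 F) : F) = algebraMap K F (k : K) := by
  rw [fr1_vn, map_natCast]

theorem fr1_tr (k : ℕ) (z : F) :
    Algebra.trace K F (((k : 𝓞 F) : F) * z) = (k : K) * Algebra.trace K F z := by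
  rw [fr1_cast, ← Algebra.smul_def, map_smul, smul_eq_mul]

theorem fr1_k {𝔟 : Ideal (𝓞 F)} {β' x : 𝓞 F} {k : ℕ} (hk : (k : 𝓞 F) = β' * x) {v : F}
    (hv : (β' : F) * v ∈ DL 𝔟) : ((k : 𝓞 F) : F) * v ∈ DL 𝔟 := by
  have e : ((k : 𝓞 F) : F) * v = (x : F) * ((β' : F) * v) := by
    rw [hk, fr1_vm]; ring
  rw [e]
  exact dl_smul 𝔟 x hv

theorem fr1_mulI {𝔟 : Ideal (𝓞 F)} {β x w : 𝓞 F} {c : 𝓞 F} (hc : c = β * x) (hw : w ∈ 𝔟) (z : F) :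
    z + ((c * w : 𝓞 F) : F) ∈ mulI 𝔟 β ↔ z ∈ mulI 𝔟 β := by
  have hxw : x * w ∈ 𝔟 := 𝔟.mul_mem_left _ hw
  constructor
  · rintro ⟨y, hy, e⟩
    refine ⟨y - x * w, 𝔟.sub_mem hy hxw, ?_⟩
    rw [hc, fr1_vm, fr1_vm] at e
    rw [fr1_vs, fr1_vm]
    linear_combination e
  · rintro ⟨y, hy, e⟩
    refine ⟨y + x * w, 𝔟.add_mem hy hxw, ?_⟩
    rw [hc, e, fr1_va, fr1_vm, fr1_vm, fr1_vm]
    ring

theorem fr1_cls {𝔟 𝔪 : Ideal (𝓞 F)} {t w c : 𝓞 F} (hc : c * w ∈ 𝔪 * 𝔟) (z : F) :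
    z + ((c * w : 𝓞 F) : F) ∈ cls 𝔟 𝔪 t ↔ z ∈ cls 𝔟 𝔪 t := by
  constructor
  · rintro ⟨y, hy, e⟩
    refine ⟨y - c * w, ?_, ?_⟩
    · rw [fr1_vs, hy]; ring
    · have : y - c * w - t = (y - t) - c * w := by ring
      rw [this]
      exact (𝔪 * 𝔟).sub_mem e hc
  · rintro ⟨y, hy, e⟩
    refine ⟨y + c * w, ?_, ?_⟩
    · rw [fr1_va, hy]
    · have : y + c * w - t = (y - t) + c * w := by ring
      rw [this]
      exact (𝔪 * 𝔟).add_mem e hc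

theorem fr1_delc {𝔟 𝔪 : Ideal (𝓞 F)} {t β' β : 𝓞 F} {b : 𝓞 K} {y z : F}
    (e1 : y ∈ cls 𝔟 𝔪 t ↔ z ∈ cls 𝔟 𝔪 t) (e2 : y ∈ mulI 𝔟 β' ↔ z ∈ mulI 𝔟 β')
    (e3 : y ∈ mulI 𝔟 β ↔ z ∈ mulI 𝔟 β) :
    del 𝔟 𝔪 t β' β b y = del 𝔟 𝔪 t β' β b z := by
  unfold del
  by_cases h1 : z ∈ cls 𝔟 𝔪 t <;> by_cases h2 : z ∈ mulI 𝔟 β' <;> by_cases h3 : z ∈ mulI 𝔟 β <;>
    simp [e1, e2, e3, h1, h2, h3]

/-- `del` is invariant under `c w`. -/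
theorem fr1_del {𝔟 𝔪 : Ideal (𝓞 F)} {t β' β x' x w c : 𝓞 F} {b : 𝓞 K} (h1 : c * w ∈ 𝔪 * 𝔟)
    (h2 : c = β' * x') (h3 : c = β * x) (hw : w ∈ 𝔟) (z : F) :
    del 𝔟 𝔪 t β' β b (z + ((c * w : 𝓞 F) : F)) = del 𝔟 𝔪 t β' β b z := by
  exact fr1_delc (fr1_cls h1 z) (fr1_mulI h2 hw z) (fr1_mulI h3 hw z)

/-- Cramer's rule. -/
theorem fr1_cramer {n : ℕ} (V : Matrix (Fin n) (Fin n) K) (k' ku k₂ : ℕ) (u cu : 𝓞 K)
    (W : Matrix (Fin n) (Fin n) (𝓞 K)) (hW : ∀ i j, ((W i j : 𝓞 K) : K) = (k' : K) * V i j)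
    (hu : (ku : K) * V.det = u) (hcu : u * cu = k₂) (hk' : (k' : K) ≠ 0) (hk₂ : (k₂ : K) ≠ 0)
    (c₁ : ℕ) (y : Fin n → K) (a : Fin n → 𝓞 K)
    (hy : ∀ i, ∑ j, V i j * y j = ((c₁ * (k' ^ n * k₂) : ℕ) : K) * a i) (j : Fin n) :
    ∃ s : 𝓞 K, y j = (c₁ : K) * s := by
  have hWm : (algebraMap (𝓞 K) K).mapMatrix W = (k' : K) • V := by
    ext i j
    simp only [RingHom.mapMatrix_apply, Matrix.map_apply, Matrix.smul_apply, smul_eq_mul]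
    exact hW i j
  set S : 𝓞 K := ∑ i, W.adjugate j i * a i with hS
  have hdet : ((k' : K) • V).det = (k' : K) ^ n * V.det := by
    rw [Matrix.det_smul, Fintype.card_fin]
  have hadj : ((k' : K) • V).adjugate = (algebraMap (𝓞 K) K).mapMatrix W.adjugate := by
    rw [RingHom.map_adjugate, hWm]
  have h1 : ((k' : K) • V).adjugate.mulVec (((k' : K) • V).mulVec y) = ((k' : K) ^ n * V.det) • y := by
    rw [Matrix.mulVec_mulVec, Matrix.adjugate_mul, hdet, Matrix.smul_mulVec, Matrix.one_mulVec]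
  have h2 : ((k' : K) • V).mulVec y = fun i => (k' : K) * (((c₁ * (k' ^ n * k₂) : ℕ) : K) * a i) := by
    funext i
    simp only [Matrix.mulVec, dotProduct, Matrix.smul_apply, smul_eq_mul]
    rw [← hy i, Finset.mul_sum]
    refine Finset.sum_congr rfl fun j _ => by ring
  have h3 := congrFun h1 j
  rw [h2, hadj] at h3
  simp only [Matrix.mulVec, dotProduct, RingHom.mapMatrix_apply, Matrix.map_apply, Pi.smul_apply,
    smul_eq_mul] at h3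
  have h4 : ∑ i, (algebraMap (𝓞 K) K) (W.adjugate j i) *
      ((k' : K) * (((c₁ * (k' ^ n * k₂) : ℕ) : K) * (a i : K))) =
      (k' : K) * ((c₁ * (k' ^ n * k₂) : ℕ) : K) * (S : K) := by
    rw [hS, fr1_vsum, Finset.mul_sum]
    refine Finset.sum_congr rfl fun i _ => ?_
    rw [fr1_vm]
    change ((W.adjugate j i : 𝓞 K) : K) * _ = _
    ring
  rw [h4] at h3
  refine ⟨cu * (ku : 𝓞 K) * (k' : 𝓞 K) * S, ?_⟩
  have hcu' : (u : K) * (cu : K) = (k₂ : K) := by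
    rw [← fr1_vm, hcu, fr1_vn]
  have hkn : (k' : K) ^ n * (k₂ : K) ≠ 0 := mul_ne_zero (pow_ne_zero _ hk') hk₂
  apply mul_left_cancel₀ hkn
  rw [fr1_vm, fr1_vm, fr1_vm, fr1_vn, fr1_vn]
  push_cast at h3
  have h5 : (k' : K) ^ n * (k₂ : K) * y j = (cu : K) * (ku : K) * ((k' : K) ^ n * V.det * y j) := by
    rw [← hcu', ← hu]; ring
  rw [h5, ← h3]
  ring


theorem fr1_delmem (A : ValuationSubring ℂ) (𝔟 𝔪 : Ideal (𝓞 F)) (t β' β : 𝓞 F) (b : 𝓞 K) (z : F) :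
    del 𝔟 𝔪 t β' β b z ∈ A := by
  obtain ⟨k, hk, -⟩ := kf_normInt b
  unfold del
  rw [← hk]
  split_ifs
  · refine A.sub_mem (one_mem _) (A.mul_mem _ _ ?_ (one_mem _))
    rw [Complex.ofReal_natCast]
    exact natCast_mem A k
  · refine A.sub_mem (one_mem _) (A.mul_mem _ _ ?_ (zero_mem _))
    rw [Complex.ofReal_natCast]
    exact natCast_mem A k
  · exact zero_mem _


end Pool.Agent.Lib.MP_1a91b9_nuT
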