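import Pool.Agent.Lib.MP_1a91b9_nuT.S6.Defs

/-!
# Job S6_KF: elementary facts on `K`
-/

set_option autoImplicit false

namespace Pool.Agent.Lib.MP_1a91b9_nuT

variable [CD]

open NumberField

theorem kf_castN (n : ℕ) : embK (((n : ℕ) : 𝓞 K) : K) = n := by
  rw [RingOfIntegers.coe_eq_algebraMap, map_natCast, map_natCast]

theorem kf_cast2 : embK ((2 : 𝓞 K) : K) = 2 := by
  have h := kf_castN 2
  exact_mod_cast h

theorem kf_cast3 : embK ((3 : 𝓞 K) : K) = 3 := by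
  have h := kf_castN 3
  exact_mod_cast h

theorem kf_repr (a : 𝓞 K) : ∃ p q : ℤ, a = (p : 𝓞 K) + (q : 𝓞 K) * omO := CD.gen a

theorem kf_emb (p q : ℤ) : embK (((p : 𝓞 K) + (q : 𝓞 K) * omO : 𝓞 K) : K) = p + q * zt :=
  embK_lin p q

theorem kf_norm (p q : ℤ) :
    ‖(p : ℂ) + q * zt‖ ^ 2 = ((p ^ 2 + CD.tr * p * q + CD.nm * q ^ 2 : ℤ) : ℝ) := norm_lin p q

theorem kf_pos (p q : ℤ) : 0 ≤ p ^ 2 + CD.tr * p * q + CD.nm * q ^ 2 := form_nonneg p q

theorem kf_normInt (a : 𝓞 K) : ∃ k : ℕ, (k : ℝ) = ‖embK (a : K)‖ ^ 2 ∧ a ∣ (k : 𝓞 K) := by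
  refine ⟨Ideal.absNorm (Ideal.span {a}), ?_, cj a, (mul_cj a).symm⟩
  rw [← normSq_emb, Complex.normSq_eq_norm_sq]

theorem kf_unit (u : 𝓞 K) (hu : IsUnit u) (h : (3 : 𝓞 K) ∣ u - 1) : u = 1 := by
  obtain ⟨d, hd⟩ := h
  have h1 : ‖embK (u : K)‖ ^ 2 = 1 := by
    rw [← Complex.normSq_eq_norm_sq, normSq_emb, Ideal.span_singleton_eq_top.2 hu,
      Ideal.absNorm_top, Nat.cast_one]
  have h2 : ‖embK (u : K)‖ = 1 := by
    have := norm_nonneg (embK (u : K))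
    nlinarith
  obtain ⟨p, q, hpq⟩ := kf_repr d
  have h3 : embK (u : K) - 1 = 3 * ((p : ℂ) + q * zt) := by
    have h4 := congrArg (fun x : 𝓞 K => embK (x : K)) hd
    have h5 : embK (((u - 1 : 𝓞 K)) : K) = embK (u : K) - 1 := by
      rw [RingOfIntegers.coe_eq_algebraMap, map_sub, map_one, map_sub, map_one]
    have h6 : embK (((3 * d : 𝓞 K)) : K) = 3 * embK (d : K) := by
      rw [RingOfIntegers.coe_eq_algebraMap, map_mul, map_mul, ← RingOfIntegers.coe_eq_algebraMap,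
        kf_cast3]
    rw [← h5, ← kf_emb, ← hpq, ← h6]
    exact h4
  have h7 : ‖embK (u : K) - 1‖ ≤ 2 := by
    refine (norm_sub_le _ _).trans ?_
    rw [h2, norm_one]
    norm_num
  have h8 : ‖(3 : ℂ) * ((p : ℂ) + q * zt)‖ ^ 2 ≤ 4 := by
    rw [← h3]
    have := norm_nonneg (embK (u : K) - 1)
    nlinarith
  rw [norm_mul, mul_pow, kf_norm] at h8
  simp only [Complex.norm_ofNat] at h8
  have h9 : (9 : ℤ) * (p ^ 2 + CD.tr * p * q + CD.nm * q ^ 2) ≤ 4 := by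
    have h10 : ((9 * (p ^ 2 + CD.tr * p * q + CD.nm * q ^ 2) : ℤ) : ℝ) ≤ ((4 : ℤ) : ℝ) := by
      push_cast at h8 ⊢
      linarith
    exact_mod_cast h10
  have h10 := kf_pos p q
  have h11 : p ^ 2 + CD.tr * p * q + CD.nm * q ^ 2 = 0 := by omega
  have h12 : ‖(p : ℂ) + q * zt‖ ^ 2 = 0 := by
    rw [kf_norm, h11, Int.cast_zero]
  have h13 : (p : ℂ) + q * zt = 0 := by
    rw [← norm_eq_zero]
    exact (pow_eq_zero_iff two_ne_zero).1 h12
  rw [h13, mul_zero, sub_eq_zero] at h3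
  apply RingOfIntegers.ext
  apply embK.toRingHom.injective
  change embK (u : K) = embK ((1 : 𝓞 K) : K)
  rw [h3, RingOfIntegers.coe_eq_algebraMap, map_one, map_one]

theorem kf_pid : IsPrincipalIdealRing (𝓞 K) := pidK

theorem kf_int (A : ValuationSubring ℂ) (y : ℂ) (hy : IsIntegral ℤ y) : y ∈ A := by
  have h1 : IsIntegral A y := hy.tower_top
  obtain ⟨z, hz⟩ := IsIntegrallyClosed.isIntegral_iff.1 h1
  rw [← hz]
  exact z.2

/-- A unit of `𝓞 K` congruent to `1` modulo `f ≥ 3` is `1`. -/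
theorem kf_unit' (f : ℕ) (hf : 3 ≤ f) (u : 𝓞 K) (hu : IsUnit u) (h : (f : 𝓞 K) ∣ u - 1) :
    u = 1 := by
  obtain ⟨d, hd⟩ := h
  obtain ⟨k, hk, hk2⟩ := kf_normInt u
  obtain ⟨v, hv⟩ := hu.exists_right_inv
  obtain ⟨k', hk', -⟩ := kf_normInt v
  have h1 : k * k' = 1 := by
    have h2 : ((k * k' : ℕ) : ℝ) = 1 := by
      push_cast
      rw [hk, hk', ← mul_pow, ← norm_mul, ← map_mul]
      have e : (u : K) * (v : K) = ((u * v : 𝓞 K) : K) := rfl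
      rw [e, hv]
      simp
    exact_mod_cast h2
  have h2 : k = 1 := Nat.eq_one_of_mul_eq_one_right h1
  have h3 : ‖embK (u : K)‖ = 1 := by
    rw [h2, Nat.cast_one] at hk
    nlinarith [norm_nonneg (embK (u : K))]
  obtain ⟨n, hn, -⟩ := kf_normInt d
  have h4 : embK ((u - 1 : 𝓞 K) : K) = (f : ℂ) * embK (d : K) := by
    have e : (((f : 𝓞 K) * d : 𝓞 K) : K) = ((f : 𝓞 K) : K) * (d : K) := rfl
    rw [hd, e, map_mul, kf_castN]
  have h5 : ‖embK ((u - 1 : 𝓞 K) : K)‖ ≤ 2 := by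
    have e : ((u - 1 : 𝓞 K) : K) = (u : K) - 1 := rfl
    rw [e, map_sub, map_one]
    refine (norm_sub_le _ _).trans ?_
    rw [h3, norm_one]
    norm_num
  have h6 : ‖embK ((u - 1 : 𝓞 K) : K)‖ ^ 2 = (f : ℝ) ^ 2 * n := by
    rw [h4, norm_mul, mul_pow, ← hn, Complex.norm_natCast]
  have h7 : (f : ℝ) ^ 2 * n ≤ 4 := by
    rw [← h6]
    nlinarith [norm_nonneg (embK ((u - 1 : 𝓞 K) : K))]
  have h8 : f ^ 2 * n ≤ 4 := by exact_mod_cast h7
  have h9 : n = 0 := by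
    by_contra hn0
    have : 1 ≤ n := Nat.one_le_iff_ne_zero.2 hn0
    nlinarith
  rw [h9, Nat.cast_zero] at hn
  have h10 : embK (d : K) = 0 := by
    rw [← norm_eq_zero]
    exact pow_eq_zero_iff two_ne_zero |>.1 hn.symm
  have h11 : d = 0 := RingOfIntegers.ext (by
    have : (d : K) = 0 := (map_eq_zero embK).1 h10
    rw [this]
    rfl)
  rw [h11, mul_zero] at hd
  exact sub_eq_zero.1 hd

end Pool.Agent.Lib.MP_1a91b9_nuT
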