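import Pool.Agent.Lib.MP_1a91b9_nuT.S6.Co2
import Pool.Agent.Lib.MP_1a91b9_nuT.S6.Ar1
import Pool.Agent.Lib.MP_1a91b9_nuT.S6.Fr1
import Pool.Agent.Lib.MP_1a91b9_nuT.S6.KF

/-!
# Job S6_Co3: 2-integrality of the value at 1 (DOC6 6.8)

`g` = the entire function of `co_entire` (any function with the two properties). `N𝔪 = absNorm 𝔪`
(odd), `R' := 3 N𝔪`, `β', b'` from `sm_exists` (odd `R'`), `bb` from `dl_basis`, `v₀` from
`gen_exists`, `ε` from `un_free` (as elements of `F`).
`co_S`: finite set `S` of `Gen 𝔟 β'` vectors which contains `v₀ ∏_{i ∈ T} ε_i` for all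
`T : Finset (Fin m)` (these are `Gen` by `gen_unit`; all entries of `path ε s v₀` are of this form)
and, for every permutation `s` for which `path ε s v₀` is linearly independent, the set of `ar_main`
(exponent from `ar_exp`); every `I, M` as in `ar_main` for `S` satisfy `I (path ε s v₀) ∈ M`
(if the path is dependent `I = 0`).
`co_val`: `R₀` from `de_adm` for `S`; `R := 3 R₀ N𝔪 (odd part of absNorm (span {β'}))`, `β, b` from
`sm_exists`; `IsCoprime β β'` (`β ≡ 1` modulo the odd part of `absNorm β'`, `β'` odd: `de_cop` for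
`N = absNorm (span {β'})` and `β' ∣ N`). `Adm2 (del ..) S`, `s2_main` gives `I`, and the entire `g₂`
with `HasSum (del z term s z) (g₂ s)` over representatives of the support `cls \ mulI 𝔟 β'`
(`co_sup`, `co_reps`; if `X` represents `cls` then `X \ mulI 𝔟 β'` represents it, `co_mulI`, and the
sum over `X` is the same since `del = 0` on `mulI 𝔟 β'`). By `co_smooth`
`g₂ s = g s * facQ b s * facP b' s` for `Re s > 2`, hence for all `s`, in particular at `s = 1`:
`facQ b 1 = 1 - conj b`, `facP b' 1 = 1 - 1/b'` where `facP b' s = 1 - conj b' ‖b'‖^(-2s)`.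
`M := {x | x / Om^(m+1) ∈ A}` (additive subgroup). `I (path ..) ∈ M` by `co_S`: the frame clause of
`s2_main` with `fr_val`, `fr_mem` (`zz a` = the element with `Tr(v_i zz a) = a_i`, exists by
nondegeneracy of the trace form). So `g₂ 1 ∈ M`. `1 - conj b` and `1 - 1/b' = (b'-1)/b'` and their
inverses are in `A` (`kf_unitA` for `b - 1`, `b' - 1`, `b'`; for the conjugate: `(b-1) c = k` odd
(`kf_odd`), conjugate this equation; `conj (embK c)` is integral). Hence `g 1 ∈ M`.
-/

set_option autoImplicit false

namespace Pool.Agent.Lib.MP_1a91b9_nuT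

variable [CD]

open NumberField

universe u

variable {F : Type u} [Field F] [NumberField F] [Algebra K F]


omit [NumberField F] [Algebra K F] in
theorem co3_path {m : ℕ} (ε : Fin m → F) (s : Equiv.Perm (Fin m)) (v : F) (j : Fin (m + 1)) :
    ∃ T : Finset (Fin m), path ε s v j = v * ∏ i ∈ T, ε i := by
  classical
  refine ⟨(Finset.univ.filter fun i : Fin m => (i : ℕ) < (j : ℕ)).map s.toEmbedding, ?_⟩
  rw [path, Finset.prod_map, Finset.prod_filter]
  rfl


/-- The trace coordinates of an independent family are arbitrary. -/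
theorem co3_zz {m : ℕ} (hn : Module.finrank K F = m + 1) (w : Fin (m + 1) → F)
    (hw : LinearIndependent K w) :
    ∃ zz : (Fin (m + 1) → K) → F, ∀ a i, Algebra.trace K F (w i * zz a) = a i := by
  let T : F →ₗ[K] (Fin (m + 1) → K) :=
    { toFun := fun z i => Algebra.trace K F (w i * z)
      map_add' := by
        intro x y
        funext i
        simp [mul_add]
      map_smul' := by
        intro r x
        funext i
        simp }
  have hspan : Submodule.span K (Set.range w) = ⊤ :=
    hw.span_eq_top_of_card_eq_finrank (by rw [Fintype.card_fin, hn])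
  have hinj : Function.Injective T := by
    rw [← LinearMap.ker_eq_bot, LinearMap.ker_eq_bot']
    intro z hz
    have h1 : ∀ x : F, Algebra.trace K F (x * z) = 0 := by
      intro x
      have hx : x ∈ Submodule.span K (Set.range w) := by rw [hspan]; trivial
      induction hx using Submodule.span_induction with
      | mem x hx =>
        obtain ⟨i, rfl⟩ := hx
        exact congrFun hz i
      | zero => simp
      | add x y _ _ h1 h2 => rw [add_mul, map_add, h1, h2, add_zero]
      | smul r x _ h1 => rw [smul_mul_assoc, map_smul, h1, smul_zero]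
    by_contra hz0
    have hnd := traceForm_nondegenerate K F
    have h2 : ∀ x : F, Algebra.traceForm K F x z = 0 := fun x => by
      rw [Algebra.traceForm_apply]
      exact h1 x
    exact hz0 (hnd.2 z h2)
  have hsurj : Function.Surjective T := by
    have hfr : Module.finrank K F = Module.finrank K (Fin (m + 1) → K) := by
      rw [hn, Module.finrank_fintype_fun_eq_card, Fintype.card_fin]
    exact (LinearMap.injective_iff_surjective_of_finrank_eq_finrank hfr).1 hinj
  choose zz hzz using hsurj
  exact ⟨zz, fun a i => congrFun (hzz a) i⟩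


/-- The factor attached to `β'`. -/
noncomputable def facP (b : 𝓞 K) (s : ℂ) : ℂ :=
  1 - (starRingEnd ℂ) (embK (b : K)) * (‖embK (b : K)‖ : ℂ) ^ (-2 * s)

theorem facP_diff (b : 𝓞 K) (hb : b ≠ 0) : Differentiable ℂ (facP b) := by
  unfold facP
  have h0 : (‖embK (b : K)‖ : ℂ) ≠ 0 := by
    have h1 : embK (b : K) ≠ 0 := by
      intro h
      apply hb
      have h2 : (b : K) = 0 := (map_eq_zero embK).1 h
      exact_mod_cast h2
    exact_mod_cast norm_ne_zero_iff.2 h1
  refine (differentiable_const _).sub ((differentiable_const _).mul ?_)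
  intro s
  exact DifferentiableAt.const_cpow (by fun_prop) (Or.inl h0)

theorem co3_cpow (x : ℂ) (hx : x ≠ 0) : (‖x‖ : ℂ) ^ (-2 * (1 : ℂ)) = (x * (starRingEnd ℂ) x)⁻¹ := by
  have h0 : (‖x‖ : ℂ) ≠ 0 := by exact_mod_cast norm_ne_zero_iff.2 hx
  have h1 : (-2 * (1 : ℂ)) = ((-2 : ℤ) : ℂ) := by push_cast; ring
  rw [h1, Complex.cpow_intCast, Complex.mul_conj, Complex.normSq_eq_norm_sq]
  push_cast
  rw [zpow_neg]
  norm_cast


end Pool.Agent.Lib.MP_1a91b9_nuT
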