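import Pool.Agent.Lib.MP_1a91b9_nuT.S6.CoR
import Pool.Agent.Lib.MP_1a91b9_nuT.S6.Sm2
import Pool.Agent.Lib.MP_1a91b9_nuT.S6.De2
import Pool.Agent.Lib.MP_1a91b9_nuT.S2.Main

/-!
# Job S6_Co1: effect of the smoothing for `Re s > 2` (DOC6 6.8)

`V = unV 𝔪`; `co_exists`, `co_indep` from `CoR`.
* `co_term`: `term s (v z) = term s z` for `v ∈ V` (`NF v = 1`, `un_norm`);
  `term s (β z) = conj (NF β) ‖NF β‖^(-2s) term s z`.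
* `co_mul`: `(R : 𝓞 F) ∈ 𝔪` and `Smooth R β b`: `cls ∩ mulI 𝔟 β = β cls`
  (`β w - t ∈ 𝔪 𝔟 ↔ w - t ∈ 𝔪 𝔟` for `w ∈ 𝔟` since `(β - 1) w ∈ 𝔪 𝔟`).
* `co_sup1`, `co_sup`: supports: `support (del1 ..) = cls` (`1 - ‖b‖² ≠ 0` since `‖b‖² ≥ 2`, `sm_gt`),
  `support (del ..) = cls \ mulI 𝔟 β'`.
-/

set_option autoImplicit false

namespace Pool.Agent.Lib.MP_1a91b9_nuT

variable [CD]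

open NumberField

universe u

variable {F : Type u} [Field F] [NumberField F] [Algebra K F]


theorem co1_term_mul (s : ℂ) (c z : F) :
    term s (c * z) = (starRingEnd ℂ) (NF c) * (‖NF c‖ : ℂ) ^ (-2 * s) * term s z := by
  unfold term
  rw [nf_mul, map_mul, norm_mul, Complex.ofReal_mul,
    Complex.mul_cpow_ofReal_nonneg (norm_nonneg _) (norm_nonneg _)]
  ring


theorem co1_le (𝔟 𝔪 : Ideal (𝓞 F)) {x : 𝓞 F} (hx : x ∈ 𝔪 * 𝔟) : x ∈ 𝔟 :=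
  (Ideal.mul_le_right : 𝔪 * 𝔟 ≤ 𝔟) hx

theorem co1_mem (𝔟 𝔪 : Ideal (𝓞 F)) {t : 𝓞 F} (ht : t ∈ 𝔟) {w : 𝓞 F} (hw : w - t ∈ 𝔪 * 𝔟) :
    w ∈ 𝔟 := by
  have := 𝔟.add_mem (co1_le 𝔟 𝔪 hw) ht
  rwa [sub_add_cancel] at this


theorem co1_coe_inj {a b : 𝓞 F} (h : (a : F) = (b : F)) : a = b :=
  RingOfIntegers.ext h


theorem co1_clsV (𝔟 𝔪 : Ideal (𝓞 F)) (t : 𝓞 F) (ht : t ∈ 𝔟) (v : (𝓞 F)ˣ) (hv : v ∈ unV 𝔪)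
    (z : F) (hz : z ∈ cls 𝔟 𝔪 t) : ((v : 𝓞 F) : F) * z ∈ cls 𝔟 𝔪 t := by
  obtain ⟨w, hw, hm⟩ := hz
  have hb := co1_mem 𝔟 𝔪 ht hm
  refine ⟨(v : 𝓞 F) * w, ?_, ?_⟩
  · rw [← hw]; push_cast; rfl
  · have e2 : (v : 𝓞 F) * w - t = ((v : 𝓞 F) - 1) * w + (w - t) := by ring
    rw [e2]
    exact (𝔪 * 𝔟).add_mem (Ideal.mul_mem_mul hv hb) hm

theorem co_cls (𝔟 𝔪 : Ideal (𝓞 F)) (t : 𝓞 F) (ht : t ∈ 𝔟) (ht' : t ∉ 𝔪 * 𝔟) :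
    (0 : F) ∉ cls 𝔟 𝔪 t ∧ ∀ v ∈ unV 𝔪, ∀ z ∈ cls 𝔟 𝔪 t, ((v : 𝓞 F) : F) * z ∈ cls 𝔟 𝔪 t := by
  refine ⟨?_, fun v hv z hz => co1_clsV 𝔟 𝔪 t ht v hv z hz⟩
  rintro ⟨w, hw, hm⟩
  have e : w = 0 := co1_coe_inj (by rw [hw]; rfl)
  rw [e, zero_sub] at hm
  exact ht' (neg_mem_iff.mp hm)

theorem co1_unit_inv (v : (𝓞 F)ˣ) (z : F) :
    (((v⁻¹ : (𝓞 F)ˣ) : 𝓞 F) : F) * (((v : 𝓞 F) : F) * z) = z := by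
  have h1 : (((v⁻¹ : (𝓞 F)ˣ) : 𝓞 F)) * ((v : 𝓞 F)) = 1 := by simp
  have h2 : ((((v⁻¹ : (𝓞 F)ˣ) : 𝓞 F) * ((v : 𝓞 F)) : 𝓞 F) : F) = 1 := by rw [h1]; rfl
  push_cast at h2
  rw [← mul_assoc, h2, one_mul]

theorem co1_mulI' (𝔟 : Ideal (𝓞 F)) (β : 𝓞 F) (x : 𝓞 F) (z : F) (hz : z ∈ mulI 𝔟 β) :
    (x : F) * z ∈ mulI 𝔟 β := by
  obtain ⟨w, hw, hz⟩ := hz
  refine ⟨x * w, 𝔟.mul_mem_left x hw, ?_⟩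
  rw [hz]; push_cast; ring

theorem co_mulI (𝔟 : Ideal (𝓞 F)) (β : 𝓞 F) (v : (𝓞 F)ˣ) (z : F) :
    ((v : 𝓞 F) : F) * z ∈ mulI 𝔟 β ↔ z ∈ mulI 𝔟 β := by
  constructor
  · intro h
    have := co1_mulI' 𝔟 β ((v⁻¹ : (𝓞 F)ˣ) : 𝓞 F) _ h
    rwa [co1_unit_inv] at this
  · intro h
    exact co1_mulI' 𝔟 β (v : 𝓞 F) z h


theorem co1_clsV_iff (𝔟 𝔪 : Ideal (𝓞 F)) (t : 𝓞 F) (ht : t ∈ 𝔟) (v : (𝓞 F)ˣ)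
    (hv : v ∈ unV 𝔪) (z : F) : ((v : 𝓞 F) : F) * z ∈ cls 𝔟 𝔪 t ↔ z ∈ cls 𝔟 𝔪 t := by
  constructor
  · intro h
    have := co1_clsV 𝔟 𝔪 t ht v⁻¹ ((unV 𝔪).inv_mem hv) _ h
    rwa [co1_unit_inv] at this
  · exact co1_clsV 𝔟 𝔪 t ht v hv z

theorem co_inv (𝔟 𝔪 : Ideal (𝓞 F)) (t : 𝓞 F) (ht : t ∈ 𝔟) (β' β : 𝓞 F) (b : 𝓞 K) (v : (𝓞 F)ˣ)
    (hv : v ∈ unV 𝔪) (z : F) :
    del 𝔟 𝔪 t β' β b (((v : 𝓞 F) : F) * z) = del 𝔟 𝔪 t β' β b z ∧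
      del1 𝔟 𝔪 t β b (((v : 𝓞 F) : F) * z) = del1 𝔟 𝔪 t β b z := by
  have h1 := co1_clsV_iff 𝔟 𝔪 t ht v hv z
  have h2 := co_mulI 𝔟 β' v z
  have h3 := co_mulI 𝔟 β v z
  constructor
  · unfold del
    rw [h1, h2, h3]
  · unfold del1
    rw [h1, h3]


end Pool.Agent.Lib.MP_1a91b9_nuT
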