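import Pool.Agent.Lib.MP_1a91b9_nuT.S6.Un2

/-!
# Job S6_CoR: representatives modulo the units congruent to 1 modulo 𝔪 (DOC6 6.8)

`V = unV 𝔪`, `IsRepsU 𝔪 X R`: `R ⊆ X` meets every `V`-orbit of `X` exactly once, freely.
* `co_exists`: representatives exist if `X` is stable under `V` and does not contain `0`
  (choice in every orbit; `V` acts freely on nonzero elements).
* `co_indep`: if `f` is invariant under `V` on `X` then `HasSum` over `R` and over `R'` are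
  equivalent (bijection `R ≃ R'`, `z ↦ v z` with the unique `v`).
* `co_reps`: for `ε` a basis of `V` (as in `un_free`) `IsRepsU 𝔪 X R ↔ IsReps (fun i => ε i) X R`.
-/

set_option autoImplicit false

namespace Pool.Agent.Lib.MP_1a91b9_nuT

variable [CD]

open NumberField

universe u

variable {F : Type u} [Field F] [NumberField F] [Algebra K F]

private theorem cor_one : (((1 : (𝓞 F)ˣ) : 𝓞 F) : F) = 1 := by
  rw [Units.val_one]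
  exact map_one (algebraMap (𝓞 F) F)

private theorem cor_mul (v w : (𝓞 F)ˣ) (z : F) :
    (((v * w : (𝓞 F)ˣ) : 𝓞 F) : F) * z = ((v : 𝓞 F) : F) * (((w : 𝓞 F) : F) * z) := by
  have h : (((v * w : (𝓞 F)ˣ) : 𝓞 F) : F) = ((v : 𝓞 F) : F) * ((w : 𝓞 F) : F) := by
    rw [Units.val_mul]
    exact map_mul (algebraMap (𝓞 F) F) _ _
  rw [h, mul_assoc]

private theorem cor_inv (v : (𝓞 F)ˣ) (z : F) :
    (((v⁻¹ : (𝓞 F)ˣ) : 𝓞 F) : F) * (((v : 𝓞 F) : F) * z) = z := by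
  rw [← cor_mul, inv_mul_cancel, cor_one, one_mul]

omit [NumberField F] [Algebra K F] in
private theorem cor_inj {v w : (𝓞 F)ˣ} {z : F} (hz : z ≠ 0)
    (h : ((v : 𝓞 F) : F) * z = ((w : 𝓞 F) : F) * z) : v = w := by
  have h1 := mul_right_cancel₀ hz h
  exact Units.ext (RingOfIntegers.coe_injective h1)

/-- the orbit relation -/
private def corSetoid (𝔪 : Ideal (𝓞 F)) : Setoid F where
  r z z' := ∃ v ∈ unV 𝔪, z' = ((v : 𝓞 F) : F) * z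
  iseqv := by
    refine ⟨fun z => ⟨1, (unV 𝔪).one_mem, by rw [cor_one, one_mul]⟩, ?_, ?_⟩
    · rintro z z' ⟨v, hv, rfl⟩
      exact ⟨v⁻¹, (unV 𝔪).inv_mem hv, (cor_inv v z).symm⟩
    · rintro z z' z'' ⟨v, hv, rfl⟩ ⟨w, hw, rfl⟩
      exact ⟨w * v, (unV 𝔪).mul_mem hw hv, (cor_mul w v z).symm⟩

theorem co_exists (𝔪 : Ideal (𝓞 F)) (X : Set F) (h0 : (0 : F) ∉ X)
    (hX : ∀ v ∈ unV 𝔪, ∀ z ∈ X, ((v : 𝓞 F) : F) * z ∈ X) : ∃ R, IsRepsU 𝔪 X R := by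
  refine ⟨{z | z ∈ X ∧ Quotient.out (Quotient.mk (corSetoid 𝔪) z) = z}, fun z hz => hz.1, ?_⟩
  intro z hz
  have hz0 : z ≠ 0 := by
    rintro rfl
    exact h0 hz
  have h1 : (corSetoid 𝔪).r z (Quotient.out (Quotient.mk (corSetoid 𝔪) z)) :=
    (corSetoid 𝔪).iseqv.symm (Quotient.mk_out (s := corSetoid 𝔪) z)
  obtain ⟨v, hv, hvz⟩ := h1
  have hq : ∀ w ∈ unV 𝔪, Quotient.mk (corSetoid 𝔪) (((w : 𝓞 F) : F) * z) =
      Quotient.mk (corSetoid 𝔪) z := by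
    intro w hw
    exact Quotient.sound (s := corSetoid 𝔪) ((corSetoid 𝔪).iseqv.symm ⟨w, hw, rfl⟩)
  refine ⟨v, ⟨hv, hX v hv z hz, ?_⟩, ?_⟩
  · rw [hq v hv, hvz]
  · rintro w ⟨hw, -, hw2⟩
    rw [hq w hw, hvz] at hw2
    exact (cor_inj hz0 hw2).symm

theorem co_indep (𝔪 : Ideal (𝓞 F)) (X R R' : Set F) (hR : IsRepsU 𝔪 X R) (hR' : IsRepsU 𝔪 X R')
    (hX : ∀ v ∈ unV 𝔪, ∀ z ∈ X, ((v : 𝓞 F) : F) * z ∈ X) (f : F → ℂ)
    (hf : ∀ v ∈ unV 𝔪, ∀ z ∈ X, f (((v : 𝓞 F) : F) * z) = f z) (a : ℂ) :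
    HasSum (fun z : R => f z) a ↔ HasSum (fun z : R' => f z) a := by
  have h1 : ∀ z : R, ∃ v : (𝓞 F)ˣ, v ∈ unV 𝔪 ∧ ((v : 𝓞 F) : F) * (z : F) ∈ R' := by
    intro z
    obtain ⟨v, ⟨hv, hv2⟩, -⟩ := hR'.2 z (hR.1 z.2)
    exact ⟨v, hv, hv2⟩
  choose v hv hvR using h1
  have huniq : ∀ (Q : Set F), IsRepsU 𝔪 X Q → ∀ z ∈ Q, ∀ w ∈ unV 𝔪, ((w : 𝓞 F) : F) * z ∈ Q →
      w = 1 := by
    intro Q hQ z hz w hw hwz
    obtain ⟨u, -, hu⟩ := hQ.2 z (hQ.1 hz)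
    have e1 := hu w ⟨hw, hwz⟩
    have e2 := hu 1 ⟨by simp, by rw [cor_one, one_mul]; exact hz⟩
    rw [e1, e2]
  let g : R → R' := fun z => ⟨((v z : 𝓞 F) : F) * (z : F), hvR z⟩
  have hg : Function.Bijective g := by
    constructor
    · intro z z' hzz
      have h2 : ((v z : 𝓞 F) : F) * (z : F) = ((v z' : 𝓞 F) : F) * (z' : F) :=
        congrArg Subtype.val hzz
      have h3 : (((v z')⁻¹ * v z : (𝓞 F)ˣ) : 𝓞 F) * (z : F) = (z' : F) := by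
        rw [cor_mul, h2, cor_inv]
      have h4 := huniq R hR z z.2 ((v z')⁻¹ * v z)
        ((unV 𝔪).mul_mem ((unV 𝔪).inv_mem (hv z')) (hv z)) (by rw [h3]; exact z'.2)
      rw [h4, cor_one, one_mul] at h3
      exact Subtype.ext h3
    · intro z'
      obtain ⟨w, ⟨hw, hwR⟩, -⟩ := hR.2 z' (hR'.1 z'.2)
      let z : R := ⟨((w : 𝓞 F) : F) * (z' : F), hwR⟩
      refine ⟨z, Subtype.ext ?_⟩
      have h2 : ((v z : 𝓞 F) : F) * (z : F) = ((v z * w : (𝓞 F)ˣ) : 𝓞 F) * (z' : F) :=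
        (cor_mul (v z) w z').symm
      have h3 := huniq R' hR' z' z'.2 (v z * w) ((unV 𝔪).mul_mem (hv z) hw)
        (by rw [← h2]; exact hvR z)
      change ((v z : 𝓞 F) : F) * (z : F) = z'
      rw [h2, h3, cor_one, one_mul]
  let e : R ≃ R' := Equiv.ofBijective g hg
  have h2 : (fun z : R => f z) = (fun z : R' => f z) ∘ e := by
    funext z
    exact (hf (v z) (hv z) z (hR.1 z.2)).symm
  rw [h2]
  exact e.hasSum_iff

theorem co_reps {m : ℕ} (𝔪 : Ideal (𝓞 F)) (ε : Fin m → (𝓞 F)ˣ) (hε : ∀ i, ε i ∈ unV 𝔪)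
    (hb : ∀ v ∈ unV 𝔪, ∃! k : Fin m → ℤ, v = ∏ i, ε i ^ k i) (X R : Set F) :
    IsRepsU 𝔪 X R ↔ IsReps (fun i => ((ε i : 𝓞 F) : F)) X R := by
  have hcoe : ∀ k : Fin m → ℤ, (((∏ i, ε i ^ k i : (𝓞 F)ˣ) : 𝓞 F) : F) =
      ∏ i, ((ε i : 𝓞 F) : F) ^ k i := by
    intro k
    have h1 : (((∏ i, ε i ^ k i : (𝓞 F)ˣ) : 𝓞 F) : F) =
        ((Units.map (algebraMap (𝓞 F) F : 𝓞 F →* F) (∏ i, ε i ^ k i) : Fˣ) : F) := rfl
    rw [h1, map_prod, Units.coe_prod]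
    refine Finset.prod_congr rfl fun i _ => ?_
    rw [map_zpow, Units.val_zpow_eq_zpow_val]
    rfl
  have hmem : ∀ k : Fin m → ℤ, (∏ i, ε i ^ k i) ∈ unV 𝔪 := fun k =>
    (unV 𝔪).prod_mem fun i _ => (unV 𝔪).zpow_mem (hε i) _
  constructor
  · intro h
    refine ⟨h.1, fun z hz => ?_⟩
    obtain ⟨v, ⟨hv, hvz⟩, hu⟩ := h.2 z hz
    obtain ⟨k, hk, hku⟩ := hb v hv
    refine ⟨k, ?_, ?_⟩
    · change (∏ i, ((ε i : 𝓞 F) : F) ^ k i) * z ∈ R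
      rw [← hcoe, ← hk]
      exact hvz
    · intro k' hk'
      change (∏ i, ((ε i : 𝓞 F) : F) ^ k' i) * z ∈ R at hk'
      rw [← hcoe] at hk'
      exact hku k' (hu _ ⟨hmem k', hk'⟩).symm
  · intro h
    refine ⟨h.1, fun z hz => ?_⟩
    obtain ⟨k, hk, hku⟩ := h.2 z hz
    refine ⟨∏ i, ε i ^ k i, ⟨hmem k, ?_⟩, ?_⟩
    · rw [hcoe]
      exact hk
    · rintro v ⟨hv, hvz⟩
      obtain ⟨k', hk', -⟩ := hb v hv
      have h1 : k' = k := by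
        apply hku
        change (∏ i, ((ε i : 𝓞 F) : F) ^ k' i) * z ∈ R
        rw [← hcoe, ← hk']
        exact hvz
      rw [hk', h1]

end Pool.Agent.Lib.MP_1a91b9_nuT
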