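import Pool.Agent.Lib.MP_1a91b9_nuT.S2.Defs

/-!
# S6 definitions
-/

set_option autoImplicit false

namespace Pool.Agent.Lib.MP_1a91b9_nuT

variable [CD]

open NumberField

noncomputable section

universe u

variable {F : Type u} [Field F] [NumberField F] [Algebra K F]


/-- The dual lattice of an ideal for the relative trace (DOC6 6.3, `L₀`). -/
def DL (𝔟 : Ideal (𝓞 F)) : Set F :=
  {v | ∀ z ∈ 𝔟, ∃ a : 𝓞 K, Algebra.trace K F (v * (z : F)) = a}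

/-- `v` generates `β⁻¹ L₀` modulo `L₀`. -/
def Gen (𝔟 : Ideal (𝓞 F)) (β : 𝓞 F) (v : F) : Prop :=
  (β : F) * v ∈ DL 𝔟 ∧ ∀ w ∈ DL 𝔟, ∃ (x : 𝓞 K), ∃ w' ∈ DL 𝔟,
    w = algebraMap K F x * ((β : F) * v) + (β : F) * w'

/-- The residue class `t + 𝔪 𝔟` in `F`. -/
def cls (𝔟 𝔪 : Ideal (𝓞 F)) (t : 𝓞 F) : Set F :=
  {z | ∃ w : 𝓞 F, (w : F) = z ∧ w - t ∈ 𝔪 * 𝔟}

/-- The ideal `β 𝔟` in `F`. -/
def mulI (𝔟 : Ideal (𝓞 F)) (β : 𝓞 F) : Set F :=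
  {z | ∃ w ∈ 𝔟, z = (β : F) * (w : F)}

open Classical in
/-- The smoothed indicator function of `t + 𝔪 𝔟` (DOC6 6.4). -/
def del (𝔟 𝔪 : Ideal (𝓞 F)) (t β' β : 𝓞 F) (b : 𝓞 K) (z : F) : ℂ :=
  if z ∈ cls 𝔟 𝔪 t ∧ z ∉ mulI 𝔟 β' then
    1 - (‖embK b‖ ^ 2 : ℝ) * (if z ∈ mulI 𝔟 β then 1 else 0) else 0

open Classical in
/-- The partially smoothed indicator function of `t + 𝔪 𝔟`. -/
def del1 (𝔟 𝔪 : Ideal (𝓞 F)) (t β : 𝓞 F) (b : 𝓞 K) (z : F) : ℂ :=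
  if z ∈ cls 𝔟 𝔪 t then
    1 - (‖embK b‖ ^ 2 : ℝ) * (if z ∈ mulI 𝔟 β then 1 else 0) else 0

/-- `R` is a set of representatives of `X` modulo the units congruent to `1` modulo `𝔪`. -/
def IsRepsU (𝔪 : Ideal (𝓞 F)) (X R : Set F) : Prop :=
  R ⊆ X ∧ ∀ z ∈ X, ∃! v : (𝓞 F)ˣ, (v : 𝓞 F) - 1 ∈ 𝔪 ∧ ((v : 𝓞 F) : F) * z ∈ R

/-- The summand of the partial `L`-series. -/
def term (s : ℂ) (z : F) : ℂ := (starRingEnd ℂ) (NF z) * (‖NF z‖ : ℂ) ^ (-2 * s)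


end

end Pool.Agent.Lib.MP_1a91b9_nuT
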