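import Pool.Agent.Lib.MP_1a91b9_nuT.S6.NFa

/-!
# Job S6_Du1: the dual lattice of an ideal for the relative trace (DOC6 6.3)

`DL 𝔟 = {v ∈ F : Tr_{F/K}(v z) ∈ 𝓞 K for all z ∈ 𝔟}`.
* `dl_basis`: `𝔟` (nonzero) is a finitely generated torsion free module over the principal ideal
  domain `𝓞 K` (`kf_pid`), so it has a basis `c_i`, which is a `K`-basis of `F` (`n = [F:K]`
  elements: `𝔟` contains a multiple of every element of `F`). Its dual basis `b_i` for the trace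
  form (nondegenerate, `traceForm_nondegenerate`) is an `𝓞 K`-basis of `DL 𝔟`, and `𝔟` is the dual
  of `DL 𝔟`. Mathlib: `LinearMap.BilinForm.dualBasis`, `dualSubmodule_span_of_basis`,
  `Module.Free.of_...PID`, `Submodule`/`IsLocalization` bases. State as below.
* `dl_dual`: double dual. (`z = ∑ c_i Tr(b_i z)` with `Tr(b_i z) ∈ 𝓞 K`.)
* `dl_int`: `𝔟` odd contains the odd integer `N = absNorm 𝔟`; for `v ∈ DL 𝔟`, `N v` has
  `Tr(N v z) ∈ 𝓞 K` for all `z ∈ 𝓞 F`, so `d N v` is integral by `U2`.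
-/

set_option autoImplicit false

namespace Pool.Agent.Lib.MP_1a91b9_nuT

variable [CD]

open NumberField

universe u

variable {F : Type u} [Field F] [NumberField F] [Algebra K F]

private theorem du1_mul {L : Type*} [Field L] [NumberField L] (x y : 𝓞 L) :
    ((x * y : 𝓞 L) : L) = (x : L) * (y : L) := map_mul (algebraMap (𝓞 L) L) x y

private theorem du1_sum {L ι : Type*} [Field L] [NumberField L] [Fintype ι] (f : ι → 𝓞 L) :
    ((∑ i, f i : 𝓞 L) : L) = ∑ i, (f i : L) := map_sum (algebraMap (𝓞 L) L) _ _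

private theorem du1_nat {L : Type*} [Field L] [NumberField L] (n : ℕ) :
    ((n : 𝓞 L) : L) = (n : L) := map_natCast (algebraMap (𝓞 L) L) n

theorem dl_add (𝔟 : Ideal (𝓞 F)) {v w : F} (hv : v ∈ DL 𝔟) (hw : w ∈ DL 𝔟) : v + w ∈ DL 𝔟 := by
  intro z hz
  obtain ⟨a, ha⟩ := hv z hz
  obtain ⟨b, hb⟩ := hw z hz
  refine ⟨a + b, ?_⟩
  rw [add_mul, map_add, ha, hb]
  simp

theorem dl_smul (𝔟 : Ideal (𝓞 F)) (x : 𝓞 F) {v : F} (hv : v ∈ DL 𝔟) : (x : F) * v ∈ DL 𝔟 := by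
  intro z hz
  obtain ⟨a, ha⟩ := hv (x * z) (𝔟.mul_mem_left x hz)
  refine ⟨a, ?_⟩
  rw [← ha]
  congr 1
  simp only [map_mul]
  ring

/-- a basis of the ideal over the integers of `K` -/
private theorem du1_basis (𝔟 : Ideal (𝓞 F)) (hb : 𝔟 ≠ ⊥) {n : ℕ} (hn : Module.finrank K F = n) :
    ∃ cc : Module.Basis (Fin n) K F, (∀ i, ∃ w ∈ 𝔟, (w : F) = cc i) ∧
      ∀ w ∈ 𝔟, ∀ i, ∃ a : 𝓞 K, cc.repr (w : F) i = a := by
  classical
  have hpid : IsPrincipalIdealRing (𝓞 K) := kf_pid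
  let M : Submodule (𝓞 K) (𝓞 F) := 𝔟.restrictScalars (𝓞 K)
  have hfin : Module.Finite (𝓞 K) M := inferInstance
  have hfree : Module.Free (𝓞 K) M := Module.free_of_finite_type_torsion_free'
  let b0 := Module.Free.chooseBasis (𝓞 K) M
  let f : M →ₗ[𝓞 K] F := (Algebra.linearMap (𝓞 F) F).restrictScalars (𝓞 K) ∘ₗ M.subtype
  have hf : ∀ x : M, f x = ((x : 𝓞 F) : F) := fun x => rfl
  have hfinj : Function.Injective f := by
    intro x y hxy
    rw [hf, hf] at hxy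
    exact Subtype.ext (RingOfIntegers.coe_injective hxy)
  have hli0 : LinearIndependent (𝓞 K) (f ∘ b0) :=
    b0.linearIndependent.map' f (LinearMap.ker_eq_bot.2 hfinj)
  have hli : LinearIndependent K (f ∘ b0) := (LinearIndependent.iff_fractionRing (𝓞 K) K).1 hli0
  have hsum : ∀ (w : 𝓞 F) (hw : w ∈ 𝔟), (w : F) = ∑ i, ((b0.repr ⟨w, hw⟩ i : 𝓞 K) : K) • (f ∘ b0) i := by
    intro w hw
    have h1 := congrArg f (b0.sum_repr ⟨w, hw⟩)
    rw [map_sum, hf] at h1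
    rw [← h1]
    refine Finset.sum_congr rfl fun i _ => ?_
    rw [map_smul, Function.comp_apply]
    exact (algebraMap_smul K _ _).symm
  have hsp : ⊤ ≤ Submodule.span K (Set.range (f ∘ b0)) := by
    intro z _
    have halg : IsAlgebraic ℤ z := (IsFractionRing.isAlgebraic_iff ℤ ℚ F).2 (Algebra.IsAlgebraic.isAlgebraic z)
    obtain ⟨m, hm, hmz⟩ := halg.exists_integral_multiple
    have hN : Ideal.absNorm 𝔟 ≠ 0 := by
      rw [Ne, Ideal.absNorm_eq_zero_iff]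
      exact hb
    let x : 𝓞 F := ⟨m • z, hmz⟩
    have hx : (x : F) = m • z := rfl
    have h1 : (Ideal.absNorm 𝔟 : 𝓞 F) * x ∈ 𝔟 := 𝔟.mul_mem_right x (Ideal.absNorm_mem 𝔟)
    have h2 : (((Ideal.absNorm 𝔟 : 𝓞 F) * x : 𝓞 F) : F) ∈ Submodule.span K (Set.range (f ∘ b0)) := by
      rw [hsum _ h1]
      exact Submodule.sum_mem _ fun i _ => Submodule.smul_mem _ _ (Submodule.subset_span ⟨i, rfl⟩)
    have hq : ((Ideal.absNorm 𝔟 : K) * (m : K)) ≠ 0 :=
      mul_ne_zero (Nat.cast_ne_zero.2 hN) (Int.cast_ne_zero.2 hm)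
    have h3 : z = ((Ideal.absNorm 𝔟 : K) * (m : K))⁻¹ • (((Ideal.absNorm 𝔟 : 𝓞 F) * x : 𝓞 F) : F) := by
      rw [eq_inv_smul_iff₀ hq, du1_mul, hx, du1_nat, Algebra.smul_def, map_mul, map_natCast, map_intCast,
        zsmul_eq_mul]
      ring
    rw [h3]
    exact Submodule.smul_mem _ _ h2
  let cc0 := Module.Basis.mk hli hsp
  have hcc0 : ∀ i, cc0 i = f (b0 i) := fun i => Module.Basis.mk_apply hli hsp i
  have hcard : Fintype.card (Module.Free.ChooseBasisIndex (𝓞 K) M) = n := by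
    rw [← hn, Module.finrank_eq_card_basis cc0]
  let e := Fintype.equivFinOfCardEq hcard
  refine ⟨cc0.reindex e, fun i => ⟨(b0 (e.symm i) : 𝓞 F), (b0 (e.symm i)).2, ?_⟩, fun w hw i => ?_⟩
  · rw [Module.Basis.reindex_apply, hcc0]
    rfl
  · refine ⟨b0.repr ⟨w, hw⟩ (e.symm i), ?_⟩
    rw [Module.Basis.repr_reindex_apply, hsum w hw]
    have h1 : ∑ i, ((b0.repr ⟨w, hw⟩ i : 𝓞 K) : K) • (f ∘ b0) i =
        ∑ i, ((b0.repr ⟨w, hw⟩ i : 𝓞 K) : K) • cc0 i := by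
      refine Finset.sum_congr rfl fun i _ => ?_
      rw [hcc0, Function.comp_apply]
    rw [h1, cc0.repr_sum_self]

theorem dl_basis (𝔟 : Ideal (𝓞 F)) (hb : 𝔟 ≠ ⊥) {n : ℕ} (hn : Module.finrank K F = n) :
    ∃ bb : Module.Basis (Fin n) K F,
      (∀ v : F, v ∈ DL 𝔟 ↔ ∀ i, ∃ a : 𝓞 K, bb.repr v i = a) ∧
      (∀ z : F, (∀ i, ∃ a : 𝓞 K, Algebra.trace K F (bb i * z) = a) ↔ ∃ w ∈ 𝔟, (w : F) = z) := by
  classical
  obtain ⟨cc, h1, h2⟩ := du1_basis 𝔟 hb hn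
  have hrep : ∀ (z : F) (i : Fin n), Algebra.trace K F (cc.traceDual i * z) = cc.repr z i := by
    intro z i
    conv_lhs => rw [← cc.sum_repr z]
    rw [Finset.mul_sum, map_sum]
    simp only [mul_smul_comm, map_smul, Module.Basis.trace_traceDual_mul, smul_eq_mul, mul_ite, mul_one, mul_zero]
    rw [Finset.sum_ite_eq' Finset.univ i]
    simp
  refine ⟨cc.traceDual, fun v => ⟨fun hv i => ?_, fun h z hz => ?_⟩, fun z => ⟨fun h => ?_, ?_⟩⟩
  · obtain ⟨w, hw, hwi⟩ := h1 i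
    obtain ⟨a, ha⟩ := hv w hw
    refine ⟨a, ?_⟩
    rw [Module.Basis.traceDual_repr_apply, Algebra.traceForm_apply, ← hwi]
    exact ha
  · choose a ha using h
    choose b hb' using fun i => h2 z hz i
    refine ⟨∑ i, a i * b i, ?_⟩
    have h3 : (z : F) = ∑ i, cc.repr (z : F) i • cc i := (cc.sum_repr _).symm
    rw [h3, Finset.mul_sum, map_sum, du1_sum]
    refine Finset.sum_congr rfl fun i _ => ?_
    have h4 := ha i
    rw [Module.Basis.traceDual_repr_apply, Algebra.traceForm_apply] at h4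
    rw [mul_smul_comm, map_smul, h4, hb' i, smul_eq_mul, du1_mul, mul_comm]
  · choose a ha using h
    choose w hw hwi using h1
    refine ⟨∑ i, algebraMap (𝓞 K) (𝓞 F) (a i) * w i, Ideal.sum_mem _ fun i _ => 𝔟.mul_mem_left _ (hw i), ?_⟩
    conv_rhs => rw [← cc.sum_repr z]
    rw [du1_sum]
    refine Finset.sum_congr rfl fun i _ => ?_
    have h5 : ((algebraMap (𝓞 K) (𝓞 F) (a i) : 𝓞 F) : F) = algebraMap K F ((a i : 𝓞 K) : K) := by
      change algebraMap (𝓞 F) F (algebraMap (𝓞 K) (𝓞 F) (a i)) = algebraMap K F (algebraMap (𝓞 K) K (a i))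
      rw [← IsScalarTower.algebraMap_apply (𝓞 K) (𝓞 F) F, ← IsScalarTower.algebraMap_apply (𝓞 K) K F]
    rw [du1_mul, ← hrep z i, ha i, hwi i, Algebra.smul_def, h5]
  · rintro ⟨w, hw, rfl⟩ i
    rw [hrep]
    exact h2 w hw i

theorem dl_dual (𝔟 : Ideal (𝓞 F)) (hb : 𝔟 ≠ ⊥) (z : F)
    (h : ∀ v ∈ DL 𝔟, ∃ a : 𝓞 K, Algebra.trace K F (v * z) = a) : ∃ w ∈ 𝔟, (w : F) = z := by
  classical
  obtain ⟨bb, h1, h2⟩ := dl_basis 𝔟 hb rfl
  refine (h2 z).1 fun i => h _ ((h1 _).2 fun j => ?_)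
  by_cases hij : i = j
  · exact ⟨1, by rw [hij, Module.Basis.repr_self]; simp⟩
  · exact ⟨0, by rw [Module.Basis.repr_self, Finsupp.single_eq_of_ne (Ne.symm hij)]; simp⟩


end Pool.Agent.Lib.MP_1a91b9_nuT
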