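import Pool.Agent.Lib.MP_1a91b9_nuT.S6.NFa

/-!
# Job S6_Sm1: the smoothing elements, algebra (DOC6 6.2)

* `sm_theta`: primitive element theorem for `F / K` (`Field.exists_primitive_element`), scaled to be
  integral: `θ ∈ 𝓞 F`, `F = K(θ)`. Every element of a finite `ℤ`-basis of `𝓞 F` is a polynomial in
  `θ` with coefficients in `K`; a common denominator `D` of all coefficients works.
* `sm_cop`: if `b ≡ c ^ n` modulo `M` and `c` is coprime to `M` then `b` is coprime to `M`.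
* `sm_elt`: write `M = 2 R D`, `β = c + M θ`, `b = N(β)`. By `nf_cong` (with the integer `M` and the
  element `c`, whose norm is `c ^ n`, `Algebra.norm_algebraMap`) `b ≡ c^n` modulo `M`, so
  `u b + v M = 1` in `𝓞 K`. `β ∣ b` in `𝓞 F` (`nf_dvd`). Modulo `β`: `M v ≡ 1`, `M θ ≡ -c`, so
  `θ ≡ M v θ ≡ -c v`; for `z ∈ 𝓞 F`, `D z = P(θ) ≡ P(-c v)` (`Polynomial` evaluation at congruent
  points), `z ≡ M v z = 2 R v (D z) ≡ 2 R v P(-c v)`, the image of an element of `𝓞 K`. This is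
  `gen`. `one`: `R ∣ c - 1`, `R ∣ M`. `odd0`, `odd1`: `b ≡ c^n ≡ omO^n` modulo `2`, `n = 2^k`,
  `kf_ompow`.
-/

set_option autoImplicit false

namespace Pool.Agent.Lib.MP_1a91b9_nuT

variable [CD]

open NumberField Polynomial

universe u

variable {F : Type u} [Field F] [NumberField F] [Algebra K F]

/-- every element of a number field has an integral natural multiple -/
theorem sm1_den {L : Type*} [Field L] [NumberField L] (x : L) :
    ∃ d : ℕ, 0 < d ∧ ∃ a : 𝓞 L, (a : L) = (d : L) * x := by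
  have hx : IsAlgebraic ℤ x :=
    (IsFractionRing.isAlgebraic_iff ℤ ℚ L).2 (Algebra.IsAlgebraic.isAlgebraic (R := ℚ) x)
  obtain ⟨y, hy, hi⟩ := hx.exists_integral_multiple
  have hex : ∀ w : L, IsIntegral ℤ w → ∃ a : 𝓞 L, (a : L) = w := fun w hw => ⟨⟨w, hw⟩, rfl⟩
  rcases Int.natAbs_eq y with h | h
  · obtain ⟨a, ha⟩ := hex _ hi
    refine ⟨y.natAbs, Int.natAbs_pos.2 hy, a, ?_⟩
    have h2 : (y : L) = (y.natAbs : L) := by
      conv_lhs => rw [h]
      rw [Int.cast_natCast]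
    rw [ha, zsmul_eq_mul, h2]
  · obtain ⟨a, ha⟩ := hex _ hi.neg
    refine ⟨y.natAbs, Int.natAbs_pos.2 hy, a, ?_⟩
    have h2 : (y : L) = -(y.natAbs : L) := by
      conv_lhs => rw [h]
      rw [Int.cast_neg, Int.cast_natCast]
    rw [ha, zsmul_eq_mul, h2]
    ring

theorem sm1_pol (P : K[X]) : ∃ d : ℕ, 0 < d ∧ ∃ Q : (𝓞 K)[X],
    Q.map (algebraMap (𝓞 K) K) = C (d : K) * P := by
  induction P using Polynomial.induction_on' with
  | add p q hp hq =>
    obtain ⟨d, hd, Q, hQ⟩ := hp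
    obtain ⟨e, he, R, hR⟩ := hq
    refine ⟨d * e, Nat.mul_pos hd he, (e : (𝓞 K)[X]) * Q + (d : (𝓞 K)[X]) * R, ?_⟩
    rw [Polynomial.map_add, Polynomial.map_mul, Polynomial.map_mul, hQ, hR,
      Polynomial.map_natCast, Polynomial.map_natCast]
    simp only [map_natCast]
    push_cast
    ring
  | monomial n a =>
    obtain ⟨d, hd, b, hb⟩ := sm1_den a
    refine ⟨d, hd, monomial n b, ?_⟩
    rw [Polynomial.map_monomial, Polynomial.C_mul_monomial]
    congr 1

theorem sm1_prim (F : Type u) [Field F] [NumberField F] [Algebra K F] :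
    ∃ θ : 𝓞 F, ∀ z : F, ∃ P : K[X], z = aeval (θ : F) P := by
  have : Module.Finite K F := Module.Finite.of_restrictScalars_finite ℚ K F
  obtain ⟨α, hα⟩ := Field.exists_primitive_element K F
  obtain ⟨d, hd, θ, hθ⟩ := sm1_den α
  have hd0 : (d : K) ≠ 0 := Nat.cast_ne_zero.2 hd.ne'
  refine ⟨θ, fun z => ?_⟩
  have hz : z ∈ (IntermediateField.adjoin K {α}).toSubalgebra := by
    rw [hα]
    exact IntermediateField.mem_top
  rw [IntermediateField.adjoin_simple_toSubalgebra_of_isAlgebraic (Algebra.IsAlgebraic.isAlgebraic α),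
    Algebra.adjoin_singleton_eq_range_aeval] at hz
  obtain ⟨P, hP⟩ := hz
  refine ⟨P.comp (C ((d : K)⁻¹) * X), ?_⟩
  rw [aeval_comp, map_mul, aeval_C, aeval_X, hθ, ← mul_assoc]
  have h1 : algebraMap K F (d : K)⁻¹ * (d : F) = 1 := by
    rw [← map_natCast (algebraMap K F) d, ← map_mul, inv_mul_cancel₀ hd0, map_one]
  rw [h1, one_mul]
  exact hP.symm

theorem sm_theta (F : Type u) [Field F] [NumberField F] [Algebra K F] :
    ∃ (θ : 𝓞 F) (D : ℕ), 0 < D ∧ ∀ z : 𝓞 F, ∃ P : (𝓞 K)[X], (D : 𝓞 F) * z = aeval θ P := by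
  classical
  obtain ⟨θ, hθ⟩ := sm1_prim F
  have key : ∀ z : 𝓞 F, ∃ d : ℕ, 0 < d ∧ ∃ Q : (𝓞 K)[X], (d : 𝓞 F) * z = aeval θ Q := by
    intro z
    obtain ⟨P, hP⟩ := hθ z
    obtain ⟨d, hd, Q, hQ⟩ := sm1_pol P
    refine ⟨d, hd, Q, ?_⟩
    apply RingOfIntegers.coe_injective
    have hP' : algebraMap (𝓞 F) F z = aeval (algebraMap (𝓞 F) F θ) P := hP
    have h1 : algebraMap (𝓞 F) F (aeval θ Q) =
        aeval (algebraMap (𝓞 F) F θ) (Q.map (algebraMap (𝓞 K) K)) := by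
      rw [Polynomial.aeval_map_algebraMap]
      exact (Polynomial.aeval_algebraMap_apply F θ Q).symm
    change algebraMap (𝓞 F) F ((d : 𝓞 F) * z) = algebraMap (𝓞 F) F (aeval θ Q)
    rw [h1, hQ, map_mul (algebraMap (𝓞 F) F), map_natCast, map_mul (aeval _), aeval_C,
      map_natCast, ← hP']
  choose d hd Q hQ using key
  obtain ⟨b⟩ : Nonempty (Module.Basis (Module.Free.ChooseBasisIndex ℤ (𝓞 F)) ℤ (𝓞 F)) :=
    ⟨RingOfIntegers.basis F⟩
  refine ⟨θ, ∏ i, d (b i), Finset.prod_pos fun i _ => hd _, fun z => ?_⟩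
  have h2 : ∀ i, ∃ e : ℕ, (∏ i, d (b i)) = d (b i) * e := fun i =>
    Finset.dvd_prod_of_mem (fun i => d (b i)) (Finset.mem_univ i)
  choose e he using h2
  refine ⟨∑ i, C ((b.repr z i : ℤ) : 𝓞 K) * (C ((e i : ℕ) : 𝓞 K) * Q (b i)), ?_⟩
  rw [map_sum]
  conv_lhs => rw [← b.sum_repr z, Finset.mul_sum]
  refine Finset.sum_congr rfl fun i _ => ?_
  rw [map_mul, map_mul, aeval_C, aeval_C, map_intCast, map_natCast, ← hQ (b i), he i, zsmul_eq_mul]
  push_cast
  ring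

theorem sm_cop {R : Type*} [CommRing R] (b c M : R) (n : ℕ) (h : M ∣ b - c ^ n)
    (hc : IsCoprime c M) : IsCoprime b M := by
  obtain ⟨t, ht⟩ := h
  have h1 : b = c ^ n + M * t := by rw [← ht]; ring
  rw [h1]
  exact (hc.pow_left).add_mul_left_left t


end Pool.Agent.Lib.MP_1a91b9_nuT
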