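import Pool.Agent.Lib.MP_1a91b9_nuT.S6.NFa

/-!
# Job S6_Un1: units congruent to 1 modulo 𝔪 ⊆ (r), r ≥ 3: norm one, torsion free, infinite places

* `un_norm`: `norm K v` is a unit of `𝓞 K` (`nf_int`, `v⁻¹`), congruent to `1` modulo `3`
  (`nf_cong` with `M = 3`, `w = 1`), so it is `1` (`kf_unit`).
* `un_tors`: if `v` is a root of unity, `v = 1 + 3x`: for every complex embedding
  `‖σ (v - 1)‖ ≤ 2`, so `|N_{F/ℚ}(v-1)| ≤ 2^[F:ℚ]`, but it is `3^[F:ℚ] |N x|`; so `x = 0`.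
* `un_place`: since `om ∈ F` every infinite place is complex and contains exactly one embedding
  which sends `om` to `zt` (the two conjugate embeddings send `om` to `zt`, `conj zt`); the
  embeddings over `K` are exactly those. So `j ↦ InfinitePlace.mk (σ j)` is a bijection, and
  `mult = 2`.
* `un_fin`: the group of units congruent to `1` modulo `𝔪` has finite index (kernel of
  `(𝓞 F)ˣ → (𝓞 F ⧸ 𝔪)ˣ`, finite).
-/

set_option autoImplicit false

namespace Pool.Agent.Lib.MP_1a91b9_nuT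

variable [CD]

open NumberField

universe u

variable {F : Type u} [Field F] [NumberField F] [Algebra K F]

/-- The units congruent to `1` modulo `𝔪`. -/
def unV (𝔪 : Ideal (𝓞 F)) : Subgroup (𝓞 F)ˣ where
  carrier := {v | (v : 𝓞 F) - 1 ∈ 𝔪}
  one_mem' := by simp
  mul_mem' := by
    intro a b ha hb
    have e : ((a * b : (𝓞 F)ˣ) : 𝓞 F) - 1 = (a : 𝓞 F) * ((b : 𝓞 F) - 1) + ((a : 𝓞 F) - 1) := by
      push_cast; ring
    rw [Set.mem_ofPred_eq, e]
    exact 𝔪.add_mem (𝔪.mul_mem_left _ hb) ha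
  inv_mem' := by
    intro a ha
    have e : ((a⁻¹ : (𝓞 F)ˣ) : 𝓞 F) - 1 = -((a⁻¹ : (𝓞 F)ˣ) : 𝓞 F) * ((a : 𝓞 F) - 1) := by
      have h : ((a⁻¹ : (𝓞 F)ˣ) : 𝓞 F) * (a : 𝓞 F) = 1 := by simp
      linear_combination h
    rw [Set.mem_ofPred_eq, e]
    exact 𝔪.mul_mem_left _ ha

theorem un1_dvd (𝔪 : Ideal (𝓞 F)) (r : ℕ) (h3 : 𝔪 ≤ Ideal.span {(r : 𝓞 F)}) (v : (𝓞 F)ˣ)
    (hv : v ∈ unV 𝔪) : (r : 𝓞 F) ∣ (v : 𝓞 F) - 1 :=
  Ideal.mem_span_singleton.1 (h3 hv)

/-- Two embeddings of `K` which agree on `om` are equal. -/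
theorem un1_ext (f g : K →+* ℂ) (h : f om = g om) : f = g := by
  refine RingHom.ext fun x => ?_
  obtain ⟨a, b, rfl⟩ := exists_rat_coords x
  rw [map_add, map_mul, map_add, map_mul, map_ratCast, map_ratCast, map_ratCast, map_ratCast, h]

theorem un1_ne : (starRingEnd ℂ) zt ≠ zt := by
  intro h
  have h2 := congrArg Complex.im h
  rw [Complex.conj_im] at h2
  apply zt_ne
  linarith

theorem un1_root (x : ℂ) (h : x ^ 2 = (CD.tr : ℂ) * x - (CD.nm : ℂ)) :
    x = zt ∨ x = (starRingEnd ℂ) zt := by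
  have h1 : (x - zt) * (x - (starRingEnd ℂ) zt) = 0 := by
    rw [conj_zt]
    linear_combination h - zt_quad
  rcases mul_eq_zero.1 h1 with h2 | h2
  · left; exact sub_eq_zero.1 h2
  · right; exact sub_eq_zero.1 h2

theorem un1_emb (φ : F →+* ℂ) : φ (algebraMap K F om) = zt ∨
    φ (algebraMap K F om) = (starRingEnd ℂ) zt := by
  apply un1_root
  have h := congrArg (fun x : K => φ (algebraMap K F x)) om_quad
  simpa only [map_sub, map_mul, map_pow, map_intCast] using h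

/-- Units congruent to `1` modulo `𝔪 ≤ (r)`, `r ≥ 3`, have relative norm `1`. -/
theorem un_norm (𝔪 : Ideal (𝓞 F)) (r : ℕ) (hr : 3 ≤ r) (h3 : 𝔪 ≤ Ideal.span {(r : 𝓞 F)})
    (v : (𝓞 F)ˣ) (hv : v ∈ unV 𝔪) : Algebra.norm K ((v : 𝓞 F) : F) = 1 := by
  obtain ⟨a, ha⟩ := nf_int (v : 𝓞 F)
  obtain ⟨b, hb⟩ := nf_int ((v⁻¹ : (𝓞 F)ˣ) : 𝓞 F)
  have hab : a * b = 1 := by
    apply RingOfIntegers.ext
    rw [RingOfIntegers.coe_eq_algebraMap, map_mul, ← RingOfIntegers.coe_eq_algebraMap,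
      ← RingOfIntegers.coe_eq_algebraMap, ← ha, ← hb, ← map_mul]
    have e : ((v : 𝓞 F) : F) * (((v⁻¹ : (𝓞 F)ˣ) : 𝓞 F) : F) = 1 := by
      rw [RingOfIntegers.coe_eq_algebraMap, RingOfIntegers.coe_eq_algebraMap, ← map_mul,
        Units.mul_inv, map_one]
    rw [e, map_one]
    simp
  have hu : IsUnit a := IsUnit.of_mul_eq_one _ hab
  have h1 : Algebra.norm K (((1 : 𝓞 F) : 𝓞 F) : F) = (1 : 𝓞 K) := by
    rw [RingOfIntegers.coe_eq_algebraMap, map_one, map_one, RingOfIntegers.coe_eq_algebraMap,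
      map_one]
  have h2 := nf_cong r (v : 𝓞 F) 1 a 1 ha h1 (un1_dvd 𝔪 r h3 v hv)
  have h4 : a = 1 := kf_unit' r hr a hu h2
  rw [ha, h4, RingOfIntegers.coe_eq_algebraMap, map_one]

/-- Units congruent to `1` modulo `𝔪 ≤ (r)`, `r ≥ 3`, are torsion free. -/
theorem un_tors (𝔪 : Ideal (𝓞 F)) (r : ℕ) (hr : 3 ≤ r) (h3 : 𝔪 ≤ Ideal.span {(r : 𝓞 F)})
    (v : (𝓞 F)ˣ) (hv : v ∈ unV 𝔪) (n : ℕ) (hn : 0 < n) (h : v ^ n = 1) : v = 1 := by
  obtain ⟨x, hx⟩ := un1_dvd 𝔪 r h3 v hv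
  have hr3 : (3 : ℝ) ≤ r := by exact_mod_cast hr
  have hx0 : x = 0 := by
    by_contra hne
    have hxF : (x : F) ≠ 0 := fun h => hne (RingOfIntegers.coe_eq_zero_iff.1 h)
    have hb : ∀ φ : F →+* ℂ, ‖φ (x : F)‖ ≤ 2 / 3 := by
      intro φ
      have h1 : φ ((v : 𝓞 F) : F) ^ n = 1 := by
        have h2 := congrArg (fun u : (𝓞 F)ˣ => φ ((u : 𝓞 F) : F)) h
        simp only [Units.val_pow_eq_pow_val, Units.val_one] at h2
        rw [RingOfIntegers.coe_eq_algebraMap, map_pow, map_pow, RingOfIntegers.coe_eq_algebraMap,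
          map_one, map_one] at h2
        exact h2
      have h2 : ‖φ ((v : 𝓞 F) : F)‖ = 1 := by
        have h4 := congrArg norm h1
        rw [norm_pow, norm_one] at h4
        exact (pow_eq_one_iff_of_nonneg (norm_nonneg _) hn.ne').1 h4
      have h5 : φ ((v : 𝓞 F) : F) - 1 = r * φ (x : F) := by
        have h6 := congrArg (fun u : 𝓞 F => φ (algebraMap (𝓞 F) F u)) hx
        simp only [map_sub, map_mul, map_one, map_natCast] at h6
        exact h6
      have h7 : ‖φ ((v : 𝓞 F) : F) - 1‖ ≤ 2 := by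
        refine (norm_sub_le _ _).trans ?_
        rw [h2, norm_one]
        norm_num
      rw [h5, norm_mul, Complex.norm_natCast] at h7
      have h8 := norm_nonneg (φ (x : F))
      nlinarith
    obtain ⟨m, hm, hxm⟩ := NumberField.Embeddings.pow_eq_one_of_norm_le_one F ℂ hxF
      x.isIntegral_coe (fun φ => (hb φ).trans (by norm_num))
    obtain ⟨φ⟩ : Nonempty (F →+* ℂ) := inferInstance
    have h1 := congrArg (fun y => ‖φ y‖) hxm
    simp only [map_pow, norm_pow, map_one, norm_one] at h1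
    have h2 := (pow_eq_one_iff_of_nonneg (norm_nonneg _) hm.ne').1 h1
    have h4 := hb φ
    rw [h2] at h4
    norm_num at h4
  apply Units.ext
  rw [hx0, mul_zero] at hx
  rw [Units.val_one]
  exact sub_eq_zero.1 hx

theorem un_place {n : ℕ} (σ : Fin n → (F →ₐ[K] ℂ)) (hσ : Function.Bijective σ) :
    Function.Bijective (fun j => InfinitePlace.mk ((σ j : F →ₐ[K] ℂ) : F →+* ℂ)) ∧
      ∀ w : InfinitePlace F, w.IsComplex := by
  have hs : ∀ j, (σ j : F →+* ℂ) (algebraMap K F om) = zt := by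
    intro j
    have h : σ j (algebraMap K F om) = algebraMap K ℂ om := (σ j).commutes om
    rw [algebraMap_eq, embK_om] at h
    exact h
  have hlift : ∀ φ : F →+* ℂ, φ (algebraMap K F om) = zt → ∃ j, (σ j : F →+* ℂ) = φ := by
    intro φ hφ
    have h1 : φ.comp (algebraMap K F) = algebraMap K ℂ := by
      apply un1_ext
      rw [RingHom.comp_apply, hφ, algebraMap_eq, embK_om]
    have hc : ∀ r : K, φ (algebraMap K F r) = algebraMap K ℂ r := fun r =>
      DFunLike.congr_fun h1 r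
    obtain ⟨j, hj⟩ := hσ.2 { φ with commutes' := hc }
    refine ⟨j, ?_⟩
    rw [hj]
    rfl
  refine ⟨⟨?_, ?_⟩, ?_⟩
  · intro i j hij
    rcases InfinitePlace.mk_eq_iff.1 hij with h | h
    · apply hσ.1
      ext x
      exact DFunLike.congr_fun h x
    · exfalso
      have h1 := DFunLike.congr_fun h (algebraMap K F om)
      rw [ComplexEmbedding.conjugate_coe_eq, hs, hs] at h1
      exact un1_ne h1
  · intro w
    rcases un1_emb w.embedding with h | h
    · obtain ⟨j, hj⟩ := hlift _ h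
      refine ⟨j, ?_⟩
      show InfinitePlace.mk (σ j : F →+* ℂ) = w
      rw [hj, InfinitePlace.mk_embedding]
    · obtain ⟨j, hj⟩ := hlift (ComplexEmbedding.conjugate w.embedding) (by
        rw [ComplexEmbedding.conjugate_coe_eq, h, Complex.conj_conj])
      refine ⟨j, ?_⟩
      show InfinitePlace.mk (σ j : F →+* ℂ) = w
      rw [hj, InfinitePlace.mk_conjugate_eq, InfinitePlace.mk_embedding]
  · intro w
    rw [InfinitePlace.isComplex_iff]
    intro h
    have h1 := DFunLike.congr_fun (ComplexEmbedding.isReal_iff.1 h) (algebraMap K F om)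
    rw [ComplexEmbedding.conjugate_coe_eq] at h1
    rcases un1_emb w.embedding with h2 | h2
    · rw [h2] at h1
      exact un1_ne h1
    · rw [h2, Complex.conj_conj] at h1
      exact un1_ne h1.symm

theorem un_fin (𝔪 : Ideal (𝓞 F)) (hm : 𝔪 ≠ ⊥) : (unV 𝔪).index ≠ 0 := by
  have : Finite (𝓞 F ⧸ 𝔪) := 𝔪.finiteQuotientOfFreeOfNeBot hm
  have h1 : unV 𝔪 = (Units.map (Ideal.Quotient.mk 𝔪 : 𝓞 F →* 𝓞 F ⧸ 𝔪)).ker := by
    ext v
    rw [MonoidHom.mem_ker, Units.ext_iff]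
    show (v : 𝓞 F) - 1 ∈ 𝔪 ↔ Ideal.Quotient.mk 𝔪 (v : 𝓞 F) = 1
    rw [← map_one (Ideal.Quotient.mk 𝔪), Ideal.Quotient.eq]
  rw [h1, Subgroup.index_ker]
  have : Finite ((𝓞 F ⧸ 𝔪)ˣ) := inferInstance
  exact Nat.card_pos.ne'

end Pool.Agent.Lib.MP_1a91b9_nuT
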